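import Pool.Agent.Lib.MP_b76bf9_an.Defs

/-! # leaf: finite rank approximation in `L^∞` -/

set_option autoImplicit false

open MeasureTheory
open scoped ENNReal

namespace WkInf

private theorem al_ae {n : ℕ} (f : LI n) :
    ∀ᵐ x ∂(volume : Measure (Fin n → ℝ)), |(f : (Fin n → ℝ) → ℝ) x| ≤ ‖f‖ := by
  have h := ae_le_eLpNormEssSup (f := (f : (Fin n → ℝ) → ℝ))
    (μ := (volume : Measure (Fin n → ℝ)))
  filter_upwards [h] with x hx
  rw [← eLpNorm_exponent_top] at hx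
  have h2 : eLpNorm (f : (Fin n → ℝ) → ℝ) ⊤ volume ≠ ⊤ := Lp.eLpNorm_ne_top f
  have h3 := ENNReal.toReal_mono h2 hx
  rw [toReal_enorm, Real.norm_eq_abs] at h3
  rw [Lp.norm_def]
  exact h3

private theorem al_norm {n : ℕ} (f : LI n) {C : ℝ} (hC : 0 ≤ C)
    (h : ∀ᵐ x ∂(volume : Measure (Fin n → ℝ)), |(f : (Fin n → ℝ) → ℝ) x| ≤ C) : ‖f‖ ≤ C := by
  rw [Lp.norm_def]
  refine ENNReal.toReal_le_of_le_ofReal hC ?_
  rw [eLpNorm_exponent_top]
  refine eLpNormEssSup_le_of_ae_bound ?_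
  filter_upwards [h] with x hx
  rw [Real.norm_eq_abs]
  exact hx

private theorem al_avg {n : ℕ} (B : Set (Fin n → ℝ)) (hB : MeasurableSet B)
    (h0 : 0 < (volume : Measure (Fin n → ℝ)) B) (h1 : (volume : Measure (Fin n → ℝ)) B < ⊤) :
    ∃ l : LI n →L[ℝ] ℝ, (∀ f, |l f| ≤ ‖f‖) ∧ ∀ (f : LI n) (a b : ℝ),
      (∀ᵐ x ∂(volume : Measure (Fin n → ℝ)), x ∈ B →
        a ≤ (f : (Fin n → ℝ) → ℝ) x ∧ (f : (Fin n → ℝ) → ℝ) x ≤ b) → a ≤ l f ∧ l f ≤ b := by
  have hm : 0 < (volume : Measure (Fin n → ℝ)).real B := ENNReal.toReal_pos h0.ne' h1.ne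
  haveI : IsFiniteMeasure ((volume : Measure (Fin n → ℝ)).restrict B) :=
    ⟨by rwa [Measure.restrict_apply_univ]⟩
  have hint : ∀ f : LI n, IntegrableOn (f : (Fin n → ℝ) → ℝ) B volume := fun f =>
    ((Lp.memLp f).restrict B).integrable le_top
  let L : LI n →ₗ[ℝ] ℝ :=
    { toFun := fun f => ((volume : Measure (Fin n → ℝ)).real B)⁻¹ *
        ∫ x in B, (f : (Fin n → ℝ) → ℝ) x
      map_add' := fun f g => by
        have e : ∫ x in B, ((f + g : LI n) : (Fin n → ℝ) → ℝ) x =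
            (∫ x in B, (f : (Fin n → ℝ) → ℝ) x) + ∫ x in B, (g : (Fin n → ℝ) → ℝ) x := by
          rw [← integral_add (hint f) (hint g)]
          refine integral_congr_ae (ae_restrict_of_ae ?_)
          filter_upwards [Lp.coeFn_add f g] with x hx
          rw [hx, Pi.add_apply]
        rw [e, mul_add]
      map_smul' := fun r f => by
        have e : ∫ x in B, ((r • f : LI n) : (Fin n → ℝ) → ℝ) x =
            r * ∫ x in B, (f : (Fin n → ℝ) → ℝ) x := by
          rw [← integral_const_mul]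
          refine integral_congr_ae (ae_restrict_of_ae ?_)
          filter_upwards [Lp.coeFn_smul r f] with x hx
          rw [hx, Pi.smul_apply, smul_eq_mul]
        rw [e, RingHom.id_apply, smul_eq_mul]
        ring }
  have hL : ∀ f, L f = ((volume : Measure (Fin n → ℝ)).real B)⁻¹ *
        ∫ x in B, (f : (Fin n → ℝ) → ℝ) x := fun f => rfl
  have hb : ∀ f, ‖L f‖ ≤ 1 * ‖f‖ := by
    intro f
    have h2 := norm_setIntegral_le_of_norm_le_const_ae' (f := (f : (Fin n → ℝ) → ℝ))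
      (C := ‖f‖) h1 (by
        filter_upwards [al_ae f] with x hx _
        rw [Real.norm_eq_abs]
        exact hx)
    rw [hL, norm_mul, norm_inv, Real.norm_of_nonneg hm.le, one_mul]
    calc ((volume : Measure (Fin n → ℝ)).real B)⁻¹ * ‖∫ x in B, (f : (Fin n → ℝ) → ℝ) x‖
        ≤ ((volume : Measure (Fin n → ℝ)).real B)⁻¹ *
          (‖f‖ * (volume : Measure (Fin n → ℝ)).real B) :=
          mul_le_mul_of_nonneg_left h2 (inv_nonneg.2 hm.le)
      _ = ‖f‖ := by field_simp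
  refine ⟨L.mkContinuous 1 hb, fun f => ?_, fun f a b h => ?_⟩
  · have h2 := hb f
    rw [one_mul, Real.norm_eq_abs] at h2
    exact h2
  · have hc : ∀ r : ℝ, IntegrableOn (fun _ : Fin n → ℝ => r) B volume := fun r =>
      integrable_const r
    have hi : ∀ r : ℝ, ∫ _ in B, r ∂(volume : Measure (Fin n → ℝ)) =
        (volume : Measure (Fin n → ℝ)).real B * r := fun r => by
      rw [setIntegral_const, smul_eq_mul]
    have e1 : (volume : Measure (Fin n → ℝ)).real B * a ≤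
        ∫ x in B, (f : (Fin n → ℝ) → ℝ) x := by
      rw [← hi a]
      refine setIntegral_mono_on_ae (hc a) (hint f) hB ?_
      filter_upwards [h] with x hx hxB using (hx hxB).1
    have e2 : ∫ x in B, (f : (Fin n → ℝ) → ℝ) x ≤
        (volume : Measure (Fin n → ℝ)).real B * b := by
      rw [← hi b]
      refine setIntegral_mono_on_ae (hint f) (hc b) hB ?_
      filter_upwards [h] with x hx hxB using (hx hxB).2
    have e3 : (L.mkContinuous 1 hb) f = ((volume : Measure (Fin n → ℝ)).real B)⁻¹ *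
        ∫ x in B, (f : (Fin n → ℝ) → ℝ) x := rfl
    rw [e3]
    constructor
    · rw [le_inv_mul_iff₀ hm]
      exact e1
    · rw [inv_mul_le_iff₀ hm]
      exact e2

private theorem al_fin {n : ℕ} (t : Set (LI n)) (ht : t.Finite) {ε : ℝ} (hε : 0 < ε) :
    ∃ A : LI n →L[ℝ] LI n, FiniteDimensional ℝ (LinearMap.range (A : LI n →ₗ[ℝ] LI n)) ∧
      (∀ f, ‖A f‖ ≤ ‖f‖) ∧ ∀ f ∈ t, ‖A f - f‖ ≤ ε := by
  classical
  haveI : Fintype t := ht.fintype
  let c : (Fin n → ℝ) → (t → ℤ) := fun x j => ⌊((j : LI n) : (Fin n → ℝ) → ℝ) x / ε⌋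
  have hc : Measurable c := measurable_pi_lambda _ fun j =>
    Int.measurable_floor.comp ((Lp.stronglyMeasurable (j : LI n)).measurable.div_const ε)
  let M : ℝ := ∑ j : t, ‖(j : LI n)‖
  have hM : ∀ j : t, ‖(j : LI n)‖ ≤ M := fun j =>
    Finset.single_le_sum (f := fun j : t => ‖(j : LI n)‖) (fun i _ => norm_nonneg _)
      (Finset.mem_univ j)
  let S : Finset (t → ℤ) := Fintype.piFinset fun _ => Finset.Icc (-⌈M / ε⌉) ⌊M / ε⌋
  have hS : ∀ᵐ x ∂(volume : Measure (Fin n → ℝ)), c x ∈ S := by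
    have h1 : ∀ᵐ x ∂(volume : Measure (Fin n → ℝ)), ∀ j : t,
        |((j : LI n) : (Fin n → ℝ) → ℝ) x| ≤ ‖(j : LI n)‖ := ae_all_iff.2 fun j => al_ae _
    filter_upwards [h1] with x hx
    rw [Fintype.mem_piFinset]
    intro j
    have h2 := abs_le.1 ((hx j).trans (hM j))
    rw [Finset.mem_Icc]
    constructor
    · rw [← Int.floor_neg]
      refine Int.floor_le_floor ?_
      rw [← neg_div]
      exact div_le_div_of_nonneg_right h2.1 hε.le
    · exact Int.floor_le_floor (div_le_div_of_nonneg_right h2.2 hε.le)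
  have hA : ∀ k : t → ℤ, MeasurableSet (c ⁻¹' {k}) := fun k => hc (measurableSet_singleton k)
  have hl : ∀ k : t → ℤ, ∃ l : LI n →L[ℝ] ℝ, (∀ f, |l f| ≤ ‖f‖) ∧
      (0 < (volume : Measure (Fin n → ℝ)) (c ⁻¹' {k}) → ∀ (f : LI n) (a b : ℝ),
        (∀ᵐ x ∂(volume : Measure (Fin n → ℝ)), x ∈ c ⁻¹' {k} →
          a ≤ (f : (Fin n → ℝ) → ℝ) x ∧ (f : (Fin n → ℝ) → ℝ) x ≤ b) → a ≤ l f ∧ l f ≤ b) := by
    intro k
    by_cases h0 : 0 < (volume : Measure (Fin n → ℝ)) (c ⁻¹' {k})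
    · obtain ⟨B, hB, hBA, hB0, hB1⟩ := Measure.exists_subset_measure_lt_top (hA k) h0
      obtain ⟨l, hl1, hl2⟩ := al_avg B hB hB0 hB1
      refine ⟨l, hl1, fun _ f a b h => hl2 f a b ?_⟩
      filter_upwards [h] with x hx hxB using hx (hBA hxB)
    · exact ⟨0, fun f => by simp, fun h => absurd h h0⟩
  choose l hl1 hl2 using hl
  let ψ : (S → ℝ) → (t → ℤ) → ℝ := fun a k => if h : k ∈ S then a ⟨k, h⟩ else 0
  have hψ : ∀ a : S → ℝ, ∀ k, |ψ a k| ≤ ‖a‖ := by
    intro a k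
    simp only [ψ]
    split_ifs with h
    · rw [← Real.norm_eq_abs]
      exact norm_le_pi_norm a ⟨k, h⟩
    · simp
  have hmem : ∀ a : S → ℝ, MemLp (fun x => ψ a (c x)) ⊤ (volume : Measure (Fin n → ℝ)) := by
    intro a
    refine memLp_top_of_bound (Measurable.aestronglyMeasurable ?_) ‖a‖ (ae_of_all _ fun x => ?_)
    · exact (Measurable.of_discrete (f := ψ a)).comp hc
    · rw [Real.norm_eq_abs]
      exact hψ a (c x)
  let Φ : (S → ℝ) →ₗ[ℝ] LI n :=
    { toFun := fun a => (hmem a).toLp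
      map_add' := fun a b => by
        rw [← MemLp.toLp_add (hmem a) (hmem b)]
        refine MemLp.toLp_congr _ _ (ae_of_all _ fun x => ?_)
        simp only [ψ, Pi.add_apply]
        split_ifs with h
        · rfl
        · simp
      map_smul' := fun r a => by
        rw [RingHom.id_apply, ← MemLp.toLp_const_smul r (hmem a)]
        refine MemLp.toLp_congr _ _ (ae_of_all _ fun x => ?_)
        simp only [ψ, Pi.smul_apply]
        split_ifs with h
        · rfl
        · simp }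
  have hΦ : ∀ a, (Φ a : (Fin n → ℝ) → ℝ) =ᵐ[volume] fun x => ψ a (c x) := fun a =>
    (hmem a).coeFn_toLp
  let P : LI n →L[ℝ] (S → ℝ) := ContinuousLinearMap.pi fun k : S => l k
  let A : LI n →L[ℝ] LI n := (LinearMap.toContinuousLinearMap Φ).comp P
  have hAf : ∀ f, A f = Φ fun k : S => l k f := fun f => rfl
  refine ⟨A, ?_, fun f => ?_, fun f hf => ?_⟩
  · have h1 : LinearMap.range (A : LI n →ₗ[ℝ] LI n) ≤ LinearMap.range Φ := by
      rintro _ ⟨f, rfl⟩
      exact ⟨fun k : S => l k f, (hAf f).symm⟩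
    exact Submodule.finiteDimensional_of_le h1
  · refine al_norm _ (norm_nonneg _) ?_
    rw [hAf]
    filter_upwards [hΦ fun k : S => l k f] with x hx
    rw [hx]
    simp only [ψ]
    split_ifs with h
    · exact hl1 _ f
    · simp
  · refine al_norm _ hε.le ?_
    have h3 : ∀ᵐ x ∂(volume : Measure (Fin n → ℝ)), ∀ k : t → ℤ, x ∈ c ⁻¹' {k} →
        0 < (volume : Measure (Fin n → ℝ)) (c ⁻¹' {k}) := by
      rw [ae_all_iff]
      intro k
      by_cases h0 : 0 < (volume : Measure (Fin n → ℝ)) (c ⁻¹' {k})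
      · exact ae_of_all _ fun _ _ => h0
      · have h4 : (volume : Measure (Fin n → ℝ)) (c ⁻¹' {k}) = 0 := by simpa using h0
        filter_upwards [measure_eq_zero_iff_ae_notMem.1 h4] with x hx hx'
        exact absurd hx' hx
    have h5 : ∀ (k : t → ℤ) (x : Fin n → ℝ), x ∈ c ⁻¹' {k} →
        (k ⟨f, hf⟩ : ℝ) * ε ≤ (f : (Fin n → ℝ) → ℝ) x ∧
          (f : (Fin n → ℝ) → ℝ) x ≤ ((k ⟨f, hf⟩ : ℝ) + 1) * ε := by
      intro k x hx
      have h6 : ⌊(f : (Fin n → ℝ) → ℝ) x / ε⌋ = k ⟨f, hf⟩ := by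
        have h7 : c x = k := hx
        rw [← h7]
      have h8 := Int.floor_le ((f : (Fin n → ℝ) → ℝ) x / ε)
      have h9 := Int.lt_floor_add_one ((f : (Fin n → ℝ) → ℝ) x / ε)
      rw [h6] at h8 h9
      exact ⟨(le_div_iff₀ hε).1 h8, ((div_lt_iff₀ hε).1 h9).le⟩
    filter_upwards [h3, hS, hΦ fun k : S => l k f, Lp.coeFn_sub (A f) f] with x hx3 hxS hxΦ hxs
    have h10 := hl2 (c x) (hx3 (c x) rfl) f _ _ (ae_of_all _ fun y hy => h5 (c x) y hy)
    have h11 := h5 (c x) x rfl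
    rw [hxs, Pi.sub_apply, hAf, hxΦ]
    simp only [ψ]
    rw [dif_pos hxS, abs_le]
    constructor <;> nlinarith [h10.1, h10.2, h11.1, h11.2]

/-- For a compact set `K` of bounded functions there is a bounded operator of finite rank which
moves the members of `K` by at most `η`. -/
theorem ap_linf {n : ℕ} (K : Set (LI n)) (hK : IsCompact K) {η : ℝ} (hη : 0 < η) :
    ∃ A : LI n →L[ℝ] LI n, FiniteDimensional ℝ (LinearMap.range (A : LI n →ₗ[ℝ] LI n)) ∧
      ∀ f ∈ K, ‖A f - f‖ ≤ η := by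
  obtain ⟨t, -, ht, hKt⟩ := hK.finite_cover_balls (show (0 : ℝ) < η / 3 by positivity)
  obtain ⟨A, hA1, hA2, hA3⟩ := al_fin t ht (show (0 : ℝ) < η / 3 by positivity)
  refine ⟨A, hA1, fun f hf => ?_⟩
  obtain ⟨y, hy, hfy⟩ := Set.mem_iUnion₂.1 (hKt hf)
  rw [Metric.mem_ball, dist_eq_norm] at hfy
  have h1 : A f - f = A (f - y) + (A y - y) - (f - y) := by
    rw [map_sub]
    abel
  rw [h1]
  have h2 := norm_sub_le (A (f - y) + (A y - y)) (f - y)
  have h3 := norm_add_le (A (f - y)) (A y - y)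
  have h4 := hA2 (f - y)
  have h5 := hA3 y hy
  linarith

end WkInf
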