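import Pool.Agent.Lib.MP_b76bf9_an.Defs

/-! # leaf: partial derivatives commute -/

set_option autoImplicit false

open MeasureTheory
open scoped ENNReal

namespace WkInf

private noncomputable def dv {n : ℕ} (v : Fin n → ℝ) (h : (Fin n → ℝ) → ℝ) : (Fin n → ℝ) → ℝ :=
  fun x => fderiv ℝ h x v

private theorem dv_smooth {n : ℕ} (v : Fin n → ℝ) {h : (Fin n → ℝ) → ℝ}
    (hh : ContDiff ℝ (⊤ : ℕ∞) h) : ContDiff ℝ (⊤ : ℕ∞) (dv v h) :=
  (hh.fderiv_right (m := ((⊤ : ℕ∞) : WithTop ℕ∞)) (by simp)).clm_apply contDiff_const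

private theorem dv_comm {n : ℕ} (v w : Fin n → ℝ) {h : (Fin n → ℝ) → ℝ}
    (hh : ContDiff ℝ (⊤ : ℕ∞) h) : dv v (dv w h) = dv w (dv v h) := by
  have h1 : ContDiff ℝ (⊤ : ℕ∞) (fderiv ℝ h) :=
    hh.fderiv_right (m := ((⊤ : ℕ∞) : WithTop ℕ∞)) (by simp)
  have h2 : ∀ x, DifferentiableAt ℝ (fderiv ℝ h) x := fun x =>
    (h1.differentiable (by simp)).differentiableAt
  have key : ∀ a b x, dv a (dv b h) x = fderiv ℝ (fderiv ℝ h) x a b := by
    intro a b x
    unfold dv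
    rw [fderiv_clm_apply (h2 x) (differentiableAt_const b)]
    simp
  funext x
  rw [key, key]
  have hs : IsSymmSndFDerivAt ℝ h x :=
    (hh.contDiffAt (x := x)).isSymmSndFDerivAt (by
      rw [minSmoothness_of_isRCLikeNormedField]
      exact WithTop.coe_le_coe.2 (le_top : (2 : ℕ∞) ≤ ⊤))
  exact hs v w

private theorem dv_iter_smooth {n : ℕ} (w : Fin n → ℝ) (m : ℕ) {h : (Fin n → ℝ) → ℝ}
    (hh : ContDiff ℝ (⊤ : ℕ∞) h) : ContDiff ℝ (⊤ : ℕ∞) ((dv w)^[m] h) := by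
  induction m generalizing h with
  | zero => exact hh
  | succ m ih => rw [Function.iterate_succ_apply]; exact ih (dv_smooth w hh)

private theorem dv_iter {n : ℕ} (v w : Fin n → ℝ) (m : ℕ) {h : (Fin n → ℝ) → ℝ}
    (hh : ContDiff ℝ (⊤ : ℕ∞) h) : dv v ((dv w)^[m] h) = (dv w)^[m] (dv v h) := by
  induction m generalizing h with
  | zero => rfl
  | succ m ih =>
    rw [Function.iterate_succ_apply, ih (dv_smooth w hh), dv_comm v w hh,
      ← Function.iterate_succ_apply]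

private noncomputable def fo {n : ℕ} (α : Fin n → ℕ) (ρ : (Fin n → ℝ) → ℝ) (l : List (Fin n)) :
    (Fin n → ℝ) → ℝ :=
  l.foldr (fun i g => (dv (Pi.single i 1))^[α i] g) ρ

private theorem fo_smooth {n : ℕ} (α : Fin n → ℕ) {ρ : (Fin n → ℝ) → ℝ}
    (hρ : ContDiff ℝ (⊤ : ℕ∞) ρ) (l : List (Fin n)) : ContDiff ℝ (⊤ : ℕ∞) (fo α ρ l) := by
  induction l with
  | nil => exact hρ
  | cons a t ih => exact dv_iter_smooth _ _ ih

private theorem fo_congr {n : ℕ} (α β : Fin n → ℕ) (ρ : (Fin n → ℝ) → ℝ) (l : List (Fin n))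
    (h : ∀ j ∈ l, β j = α j) : fo β ρ l = fo α ρ l := by
  induction l with
  | nil => rfl
  | cons a t ih =>
    have h1 := ih fun j hj => h j (List.mem_cons_of_mem _ hj)
    have h2 := h a List.mem_cons_self
    change (dv (Pi.single a 1))^[β a] (fo β ρ t) = (dv (Pi.single a 1))^[α a] (fo α ρ t)
    rw [h1, h2]

private theorem dv_fo {n : ℕ} (α β : Fin n → ℕ) (i : Fin n)
    (hβ : ∀ j, β j = α j + if j = i then 1 else 0) {ρ : (Fin n → ℝ) → ℝ}
    (hρ : ContDiff ℝ (⊤ : ℕ∞) ρ) (l : List (Fin n)) (hl : l.Nodup) (hi : i ∈ l) :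
    dv (Pi.single i 1) (fo α ρ l) = fo β ρ l := by
  induction l with
  | nil => exact absurd hi List.not_mem_nil
  | cons a t ih =>
    rw [List.nodup_cons] at hl
    change dv (Pi.single i 1) ((dv (Pi.single a 1))^[α a] (fo α ρ t)) =
      (dv (Pi.single a 1))^[β a] (fo β ρ t)
    by_cases h : a = i
    · subst h
      have h1 : fo β ρ t = fo α ρ t := by
        refine fo_congr α β ρ t fun j hj => ?_
        have h2 : j ≠ a := fun he => hl.1 (he ▸ hj)
        rw [hβ j, if_neg h2, add_zero]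
      rw [h1, hβ a, if_pos rfl, Function.iterate_succ_apply']
    · have hit : i ∈ t := by
        rcases List.mem_cons.1 hi with h1 | h1
        · exact absurd h1.symm h
        · exact h1
      rw [dv_iter _ _ _ (fo_smooth α hρ t), ih hl.2 hit, hβ a, if_neg h, add_zero]

theorem fderiv_pd {n k : ℕ} (α β : Fin n → Fin (k + 1)) (i : Fin n)
    (hβ : ∀ j, (β j : ℕ) = (α j : ℕ) + if j = i then 1 else 0) {ρ : (Fin n → ℝ) → ℝ}
    (hρ : ContDiff ℝ (⊤ : ℕ∞) ρ) (x : Fin n → ℝ) :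
    fderiv ℝ (pd α ρ) x (Pi.single i 1) = pd β ρ x := by
  have h := dv_fo (fun j => (α j : ℕ)) (fun j => (β j : ℕ)) i hβ hρ (List.finRange n)
    (List.nodup_finRange n) (List.mem_finRange i)
  exact congrFun h x

end WkInf
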