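import Pool.Agent.Lib.MP_b76bf9_an.Pd

/-! # leaf: smoothing commutes with weak derivatives -/

set_option autoImplicit false

open MeasureTheory
open scoped ENNReal

namespace WkInf

theorem commute {n k : ℕ} {u : (Fin n → Fin (k + 1)) → LI n} (hu : IsW n k u)
    (α : Fin n → Fin (k + 1)) (hα : ∑ i, (α i : ℕ) ≤ k) {ρ : (Fin n → ℝ) → ℝ}
    (hρ : ContDiff ℝ (⊤ : ℕ∞) ρ) (hs : HasCompactSupport ρ) (x : Fin n → ℝ) :
    ∫ y, (u 0 : (Fin n → ℝ) → ℝ) y * pd α ρ (x - y) =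
      ∫ y, (u α : (Fin n → ℝ) → ℝ) y * ρ (x - y) := by
  have h1 : ContDiff ℝ (⊤ : ℕ∞) (fun z => ρ (x - z)) :=
    hρ.comp (contDiff_const.sub contDiff_id)
  have h2 : HasCompactSupport (fun z => ρ (x - z)) := by
    have := hs.comp_homeomorph (Homeomorph.subLeft x)
    exact this
  have h3 := hu.2 α hα _ h1 h2
  simp only [pd_reflect α hρ] at h3
  have h4 : ∫ y, (u 0 : (Fin n → ℝ) → ℝ) y * ((-1 : ℝ) ^ (∑ i, (α i : ℕ)) * pd α ρ (x - y)) =
      (-1 : ℝ) ^ (∑ i, (α i : ℕ)) * ∫ y, (u 0 : (Fin n → ℝ) → ℝ) y * pd α ρ (x - y) := by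
    rw [← integral_const_mul]
    refine integral_congr_ae (Filter.Eventually.of_forall fun y => ?_)
    simp only
    ring
  rw [h4] at h3
  exact mul_left_cancel₀ (pow_ne_zero _ (by norm_num)) h3

end WkInf
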