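import Pool.Agent.Lib.MP_b76bf9_an.Defs

/-! # leaf: convolution of a bounded function with a continuous function of compact support -/

set_option autoImplicit false

open MeasureTheory
open scoped ENNReal

namespace WkInf

private noncomputable def cvf {n : ℕ} (ψ : (Fin n → ℝ) → ℝ) (g : (Fin n → ℝ) → ℝ)
    (x : Fin n → ℝ) : ℝ := ∫ y, g y * ψ (x - y)

private theorem cv_ae {n : ℕ} (g : LI n) : ∀ᵐ y ∂(volume : Measure (Fin n → ℝ)),
    ‖(g : (Fin n → ℝ) → ℝ) y‖ ≤ ‖g‖ := by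
  have h1 := ae_le_eLpNormEssSup (f := (g : (Fin n → ℝ) → ℝ)) (μ := (volume : Measure (Fin n → ℝ)))
  have h2 : eLpNormEssSup (g : (Fin n → ℝ) → ℝ) (volume : Measure (Fin n → ℝ)) ≠ ⊤ := by
    have h3 := Lp.eLpNorm_ne_top g
    rwa [eLpNorm_exponent_top] at h3
  filter_upwards [h1] with y hy
  rw [Lp.norm_def, eLpNorm_exponent_top]
  have h4 := ENNReal.toReal_mono h2 hy
  simpa using h4

private theorem cv_psi {n : ℕ} {ψ : (Fin n → ℝ) → ℝ} (hc : Continuous ψ)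
    (hs : HasCompactSupport ψ) (x : Fin n → ℝ) : Integrable fun y => |ψ (x - y)| := by
  have h1 : Integrable ψ := hc.integrable_of_hasCompactSupport hs
  exact (h1.comp_sub_left x).abs

private theorem cv_int {n : ℕ} {ψ : (Fin n → ℝ) → ℝ} (hc : Continuous ψ)
    (hs : HasCompactSupport ψ) (g : LI n) (x : Fin n → ℝ) :
    Integrable fun y => (g : (Fin n → ℝ) → ℝ) y * ψ (x - y) := by
  refine Integrable.mono' ((cv_psi hc hs x).const_mul ‖g‖)
    ((Lp.aestronglyMeasurable g).mul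
      (hc.comp (continuous_const.sub continuous_id)).aestronglyMeasurable) ?_
  filter_upwards [cv_ae g] with y hy
  rw [norm_mul]
  exact mul_le_mul_of_nonneg_right hy (norm_nonneg _)

private theorem cv_bd {n : ℕ} {ψ : (Fin n → ℝ) → ℝ} (hc : Continuous ψ)
    (hs : HasCompactSupport ψ) (g : LI n) (x : Fin n → ℝ) :
    ‖cvf ψ (g : (Fin n → ℝ) → ℝ) x‖ ≤ (∫ y, |ψ y|) * ‖g‖ := by
  unfold cvf
  have h1 : ‖∫ y, (g : (Fin n → ℝ) → ℝ) y * ψ (x - y)‖ ≤ ∫ y, ‖g‖ * |ψ (x - y)| := by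
    refine norm_integral_le_of_norm_le ((cv_psi hc hs x).const_mul ‖g‖) ?_
    filter_upwards [cv_ae g] with y hy
    rw [norm_mul]
    exact mul_le_mul_of_nonneg_right hy (norm_nonneg _)
  rw [integral_const_mul, integral_sub_left_eq_self (fun y => |ψ y|) volume x, mul_comm] at h1
  exact h1

private theorem cv_meas {n : ℕ} {ψ : (Fin n → ℝ) → ℝ} (hc : Continuous ψ) (g : LI n) :
    AEStronglyMeasurable (cvf ψ (g : (Fin n → ℝ) → ℝ)) (volume : Measure (Fin n → ℝ)) := by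
  have h1 : AEStronglyMeasurable (fun z : (Fin n → ℝ) × (Fin n → ℝ) =>
      (g : (Fin n → ℝ) → ℝ) z.2 * ψ (z.1 - z.2))
      ((volume : Measure (Fin n → ℝ)).prod (volume : Measure (Fin n → ℝ))) :=
    ((Lp.aestronglyMeasurable g).comp_snd).mul
      (hc.comp (continuous_fst.sub continuous_snd)).aestronglyMeasurable
  exact h1.integral_prod_right'

private theorem cv_mem {n : ℕ} {ψ : (Fin n → ℝ) → ℝ} (hc : Continuous ψ)
    (hs : HasCompactSupport ψ) (g : LI n) :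
    MemLp (cvf ψ (g : (Fin n → ℝ) → ℝ)) ⊤ (volume : Measure (Fin n → ℝ)) :=
  memLp_top_of_bound (cv_meas hc g) ((∫ y, |ψ y|) * ‖g‖)
    (Filter.Eventually.of_forall fun x => cv_bd hc hs g x)

private theorem cv_add {n : ℕ} {ψ : (Fin n → ℝ) → ℝ} (hc : Continuous ψ)
    (hs : HasCompactSupport ψ) (g h : LI n) :
    cvf ψ ((g + h : LI n) : (Fin n → ℝ) → ℝ) =
      cvf ψ (g : (Fin n → ℝ) → ℝ) + cvf ψ (h : (Fin n → ℝ) → ℝ) := by
  funext x
  show ∫ y, ((g + h : LI n) : (Fin n → ℝ) → ℝ) y * ψ (x - y) =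
    (∫ y, (g : (Fin n → ℝ) → ℝ) y * ψ (x - y)) + ∫ y, (h : (Fin n → ℝ) → ℝ) y * ψ (x - y)
  rw [← integral_add (cv_int hc hs g x) (cv_int hc hs h x)]
  refine integral_congr_ae ?_
  filter_upwards [Lp.coeFn_add g h] with y hy
  rw [hy, Pi.add_apply, add_mul]

private theorem cv_smul {n : ℕ} {ψ : (Fin n → ℝ) → ℝ} (c : ℝ) (g : LI n) :
    cvf ψ ((c • g : LI n) : (Fin n → ℝ) → ℝ) = c • cvf ψ (g : (Fin n → ℝ) → ℝ) := by
  funext x
  show ∫ y, ((c • g : LI n) : (Fin n → ℝ) → ℝ) y * ψ (x - y) =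
    c • ∫ y, (g : (Fin n → ℝ) → ℝ) y * ψ (x - y)
  rw [← integral_smul]
  refine integral_congr_ae ?_
  filter_upwards [Lp.coeFn_smul c g] with y hy
  rw [hy, Pi.smul_apply, smul_eq_mul, smul_eq_mul, mul_assoc]

theorem exists_conv {n : ℕ} (ψ : (Fin n → ℝ) → ℝ) (hc : Continuous ψ)
    (hs : HasCompactSupport ψ) :
    ∃ C : LI n →L[ℝ] LI n,
      (∀ g : LI n, (C g : (Fin n → ℝ) → ℝ) =ᵐ[volume]
        fun x => ∫ y, (g : (Fin n → ℝ) → ℝ) y * ψ (x - y)) ∧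
      ∀ g : LI n, ‖C g‖ ≤ (∫ y, |ψ y|) * ‖g‖ := by
  have h0 : 0 ≤ ∫ y, |ψ y| := integral_nonneg fun y => abs_nonneg _
  let L : LI n →ₗ[ℝ] LI n :=
    { toFun := fun g => (cv_mem hc hs g).toLp (cvf ψ (g : (Fin n → ℝ) → ℝ))
      map_add' := fun g h => by
        rw [← MemLp.toLp_add]
        exact MemLp.toLp_congr _ _ (Filter.EventuallyEq.of_eq (cv_add hc hs g h))
      map_smul' := fun c g => by
        rw [RingHom.id_apply, ← MemLp.toLp_const_smul]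
        exact MemLp.toLp_congr _ _ (Filter.EventuallyEq.of_eq (cv_smul c g)) }
  have hb : ∀ g : LI n, ‖L g‖ ≤ (∫ y, |ψ y|) * ‖g‖ := by
    intro g
    show ‖(cv_mem hc hs g).toLp (cvf ψ (g : (Fin n → ℝ) → ℝ))‖ ≤ _
    rw [Lp.norm_toLp, eLpNorm_exponent_top]
    refine ENNReal.toReal_le_of_le_ofReal (mul_nonneg h0 (norm_nonneg _)) ?_
    exact eLpNormEssSup_le_of_ae_bound (Filter.Eventually.of_forall fun x => cv_bd hc hs g x)
  refine ⟨L.mkContinuous (∫ y, |ψ y|) hb, fun g => ?_, fun g => hb g⟩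
  exact MemLp.coeFn_toLp (cv_mem hc hs g)

end WkInf
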