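import Mathlib

/-!
# MP_b76bf9_an: definitions (helper4)
-/

set_option autoImplicit false

open MeasureTheory
open scoped ENNReal

namespace WkInf

/-- The space of the bounded measurable functions on `ℝⁿ` (classes modulo null sets). -/
abbrev LI (n : ℕ) : Type := Lp ℝ (⊤ : ℝ≥0∞) (volume : Measure (Fin n → ℝ))

/-- The partial derivative `D^α φ`, exactly as in the frozen statement. -/
noncomputable def pd {n k : ℕ} (α : Fin n → Fin (k + 1)) (φ : (Fin n → ℝ) → ℝ) :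
    (Fin n → ℝ) → ℝ :=
  (List.finRange n).foldr
    (fun i g => (fun h : (Fin n → ℝ) → ℝ =>
      fun x => fderiv ℝ h x (Pi.single i 1))^[(α i : ℕ)] g) φ

/-- The tuple `u` is `(D^α f)_{|α| ≤ k}` (weak derivatives) for `f = u 0` in `W^{k,∞}(ℝⁿ)`; the
components with `|α| > k` are `0`.  Exactly the condition of the frozen statement. -/
def IsW (n k : ℕ) (u : (Fin n → Fin (k + 1)) → LI n) : Prop :=
  (∀ α : Fin n → Fin (k + 1), k < ∑ i, (α i : ℕ) → u α = 0) ∧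
    (∀ α : Fin n → Fin (k + 1), ∑ i, (α i : ℕ) ≤ k →
      ∀ φ : (Fin n → ℝ) → ℝ, ContDiff ℝ (⊤ : ℕ∞) φ → HasCompactSupport φ →
        ∫ x, (u 0 : (Fin n → ℝ) → ℝ) x * pd α φ x
          = (-1 : ℝ) ^ (∑ i, (α i : ℕ)) * ∫ x, (u α : (Fin n → ℝ) → ℝ) x * φ x)

/-- `g` is almost everywhere equal to a uniformly continuous function. -/
def UC {n : ℕ} (g : LI n) : Prop :=
  ∃ f : (Fin n → ℝ) → ℝ, UniformContinuous f ∧ (g : (Fin n → ℝ) → ℝ) =ᵐ[volume] f

/-- `ρ` is a mollifier with support in the ball of radius `δ`. -/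
structure Mol (n : ℕ) (δ : ℝ) (ρ : (Fin n → ℝ) → ℝ) : Prop where
  smooth : ContDiff ℝ (⊤ : ℕ∞) ρ
  supp : HasCompactSupport ρ
  nonneg : ∀ x, 0 ≤ ρ x
  int : ∫ x, ρ x = 1
  small : ∀ x, ρ x ≠ 0 → ‖x‖ < δ

end WkInf
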