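import Pool.Agent.Lib.MP_b76bf9_an.Defs

/-! # leaf: a limit of equi-Lipschitz smoothings is Lipschitz -/

set_option autoImplicit false

open MeasureTheory
open scoped ENNReal

namespace WkInf

/-- The bump functions of outer radius `1 / (m + 1)`. -/
private noncomputable def lipBump (n : ℕ) (m : ℕ) : ContDiffBump (0 : Fin n → ℝ) :=
  { rIn := 1 / (2 * ((m : ℝ) + 1)), rOut := 1 / ((m : ℝ) + 1),
    rIn_pos := by positivity,
    rIn_lt_rOut := by
      apply one_div_lt_one_div_of_lt (by positivity)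
      have : (0 : ℝ) ≤ m := Nat.cast_nonneg m
      linarith }

private theorem lipBump_mol (n m : ℕ) :
    Mol n (1 / ((m : ℝ) + 1)) ((lipBump n m).normed volume) where
  smooth := (lipBump n m).contDiff_normed
  supp := (lipBump n m).hasCompactSupport_normed
  nonneg := fun x => (lipBump n m).nonneg_normed x
  int := (lipBump n m).integral_normed
  small := by
    intro x hx
    have h1 : x ∈ Function.support ((lipBump n m).normed volume) := hx
    rw [(lipBump n m).support_normed_eq] at h1
    have h2 : ‖x‖ < (lipBump n m).rOut := by simpa using h1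
    exact h2

theorem uc_of_lip {n : ℕ} (g : LI n) {L : ℝ} (hL : 0 ≤ L)
    (h : ∀ (δ : ℝ) (ρ : (Fin n → ℝ) → ℝ), Mol n δ ρ → ∀ x y : Fin n → ℝ,
      |(∫ z, (g : (Fin n → ℝ) → ℝ) z * ρ (x - z)) -
        ∫ z, (g : (Fin n → ℝ) → ℝ) z * ρ (y - z)| ≤ L * ‖x - y‖) : UC g := by
  have hloc : LocallyIntegrable (g : (Fin n → ℝ) → ℝ) volume :=
    (Lp.memLp g).locallyIntegrable le_top
  have hlim : ∀ᵐ x ∂(volume : Measure (Fin n → ℝ)),
      Filter.Tendsto (fun m : ℕ => ∫ z, (g : (Fin n → ℝ) → ℝ) z *
        (lipBump n m).normed volume (x - z)) Filter.atTop (nhds ((g : (Fin n → ℝ) → ℝ) x)) := by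
    have h1 := ContDiffBump.ae_convolution_tendsto_right_of_locallyIntegrable
      (φ := lipBump n) (l := Filter.atTop) (K := 2) (μ := (volume : Measure (Fin n → ℝ)))
      (g := (g : (Fin n → ℝ) → ℝ)) ?_ ?_ hloc
    · filter_upwards [h1] with x hx
      refine hx.congr fun m => ?_
      rw [convolution_eq_swap]
      refine integral_congr_ae (Filter.Eventually.of_forall fun z => ?_)
      simp only [ContinuousLinearMap.lsmul_apply, smul_eq_mul]
      ring
    · exact tendsto_one_div_add_atTop_nhds_zero_nat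
    · refine Filter.Eventually.of_forall fun m => ?_
      have h2 : (0 : ℝ) < (m : ℝ) + 1 := by positivity
      show 1 / ((m : ℝ) + 1) ≤ 2 * (1 / (2 * ((m : ℝ) + 1)))
      apply le_of_eq
      field_simp
  set A : Set (Fin n → ℝ) := {x | Filter.Tendsto (fun m : ℕ => ∫ z, (g : (Fin n → ℝ) → ℝ) z *
        (lipBump n m).normed volume (x - z)) Filter.atTop (nhds ((g : (Fin n → ℝ) → ℝ) x))} with hA
  have hLip : LipschitzOnWith (⟨L, hL⟩ : NNReal) (g : (Fin n → ℝ) → ℝ) A := by
    refine LipschitzOnWith.of_dist_le_mul fun x hx y hy => ?_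
    have h3 := ((hx : Filter.Tendsto _ _ _).sub (hy : Filter.Tendsto _ _ _)).abs
    rw [Real.dist_eq, dist_eq_norm]
    exact le_of_tendsto h3 (Filter.Eventually.of_forall fun m => h _ _ (lipBump_mol n m) x y)
  obtain ⟨f, hf, hfA⟩ := hLip.extend_real
  refine ⟨f, hf.uniformContinuous, ?_⟩
  filter_upwards [hlim] with x hx
  exact hfA hx

end WkInf
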