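import Pool.Agent.Lib.MP_b76bf9_an.Comm
import Pool.Agent.Lib.MP_b76bf9_an.Commute

/-! # leaf: the smoothed derivatives of order `< k` are equi-Lipschitz -/

set_option autoImplicit false

open MeasureTheory
open scoped ENNReal

namespace WkInf

private theorem li_ae {n : ℕ} (g : LI n) : ∀ᵐ y ∂(volume : Measure (Fin n → ℝ)),
    ‖(g : (Fin n → ℝ) → ℝ) y‖ ≤ ‖g‖ := by
  have h2 := ae_le_eLpNormEssSup (f := (g : (Fin n → ℝ) → ℝ))
    (μ := (volume : Measure (Fin n → ℝ)))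
  have hmem : MemLp (g : (Fin n → ℝ) → ℝ) ⊤ (volume : Measure (Fin n → ℝ)) := Lp.memLp g
  filter_upwards [h2] with y hy
  rw [Lp.norm_def, eLpNorm_exponent_top]
  have h3 : eLpNormEssSup (g : (Fin n → ℝ) → ℝ) (volume : Measure (Fin n → ℝ)) ≠ ⊤ := by
    have := hmem.2.ne
    rwa [eLpNorm_exponent_top] at this
  have h4 := ENNReal.toReal_mono h3 hy
  simpa using h4

private theorem li_loc {n : ℕ} (g : LI n) :
    LocallyIntegrable (g : (Fin n → ℝ) → ℝ) (volume : Measure (Fin n → ℝ)) :=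
  (Lp.memLp g).locallyIntegrable le_top

private theorem li_bd {n : ℕ} (g : LI n) {δ : ℝ} {ρ : (Fin n → ℝ) → ℝ} (hρ : Mol n δ ρ)
    (x : Fin n → ℝ) : |∫ z, (g : (Fin n → ℝ) → ℝ) z * ρ (x - z)| ≤ ‖g‖ := by
  have hρi : Integrable ρ :=
    hρ.smooth.continuous.integrable_of_hasCompactSupport hρ.supp
  have hρc : Integrable (fun y => ρ (x - y)) := hρi.comp_sub_left x
  have hone : ∫ y, ρ (x - y) = 1 := by
    rw [integral_sub_left_eq_self]; exact hρ.int
  have hb : ‖∫ y, (g : (Fin n → ℝ) → ℝ) y * ρ (x - y)‖ ≤ ∫ y, ‖g‖ * ρ (x - y) := by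
    refine norm_integral_le_of_norm_le (hρc.const_mul _) ?_
    filter_upwards [li_ae g] with y hy
    rw [norm_mul, Real.norm_of_nonneg (hρ.nonneg _)]
    exact mul_le_mul_of_nonneg_right hy (hρ.nonneg _)
  rw [integral_const_mul, hone, mul_one] at hb
  exact hb

theorem lip_one {n k : ℕ} {u : (Fin n → Fin (k + 1)) → LI n} (hu : IsW n k u)
    (α : Fin n → Fin (k + 1)) (hα : ∑ i, (α i : ℕ) < k) :
    ∃ L : ℝ, 0 ≤ L ∧ ∀ (δ : ℝ) (ρ : (Fin n → ℝ) → ℝ), Mol n δ ρ → ∀ x y : Fin n → ℝ,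
      |(∫ z, (u α : (Fin n → ℝ) → ℝ) z * ρ (x - z)) -
        ∫ z, (u α : (Fin n → ℝ) → ℝ) z * ρ (y - z)| ≤ L * ‖x - y‖ := by
  classical
  have hα1 : ∀ i : Fin n, (α i : ℕ) + 1 ≤ k := by
    intro i
    have h1 : (α i : ℕ) ≤ ∑ i, (α i : ℕ) :=
      Finset.single_le_sum (f := fun i => (α i : ℕ)) (fun _ _ => Nat.zero_le _) (Finset.mem_univ i)
    omega
  let β : Fin n → (Fin n → Fin (k + 1)) := fun i j =>
    ⟨(α j : ℕ) + if j = i then 1 else 0, by
      have := hα1 j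
      split_ifs <;> omega⟩
  have hβ : ∀ i j, (β i j : ℕ) = (α j : ℕ) + if j = i then 1 else 0 := fun i j => rfl
  have hβs : ∀ i, ∑ j, (β i j : ℕ) ≤ k := by
    intro i
    simp only [hβ]
    rw [Finset.sum_add_distrib, Finset.sum_ite_eq' Finset.univ i (fun _ => 1)]
    simp only [Finset.mem_univ, if_true]
    omega
  refine ⟨∑ i, ‖u (β i)‖, Finset.sum_nonneg fun i _ => norm_nonneg _, fun δ ρ hρ x y => ?_⟩
  set g : (Fin n → ℝ) → ℝ := pd α ρ with hg
  have hgs : ContDiff ℝ (⊤ : ℕ∞) g := pd_smooth α hρ.smooth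
  have hgc : HasCompactSupport g := pd_supp α hρ.supp
  have hg1 : ContDiff ℝ 1 g := hgs.of_le (by exact_mod_cast le_top)
  set f : (Fin n → ℝ) → ℝ := (u 0 : (Fin n → ℝ) → ℝ) with hf
  have hfl : LocallyIntegrable f (volume : Measure (Fin n → ℝ)) := li_loc (u 0)
  set L0 : ℝ →L[ℝ] ℝ →L[ℝ] ℝ := ContinuousLinearMap.mul ℝ ℝ with hL0
  have hF : ∀ x : Fin n → ℝ, ∫ z, (u α : (Fin n → ℝ) → ℝ) z * ρ (x - z) =
      convolution f g L0 volume x := by
    intro x
    rw [← commute hu α hα.le hρ.smooth hρ.supp x]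
    rfl
  have hD : ∀ x : Fin n → ℝ, HasFDerivAt (convolution f g L0 volume)
      (convolution f (fderiv ℝ g) (L0.precompR (Fin n → ℝ)) volume x) x := fun x =>
    hgc.hasFDerivAt_convolution_right L0 hfl hg1 x
  have hE : ∀ (x : Fin n → ℝ) (i : Fin n),
      convolution f (fderiv ℝ g) (L0.precompR (Fin n → ℝ)) volume x (Pi.single i 1) =
        ∫ z, (u (β i) : (Fin n → ℝ) → ℝ) z * ρ (x - z) := by
    intro x i
    rw [convolution_precompR_apply L0 hfl (hgc.fderiv ℝ) (hg1.continuous_fderiv one_ne_zero),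
      ← commute hu (β i) (hβs i) hρ.smooth hρ.supp x]
    have h1 : (fun a => fderiv ℝ g a (Pi.single i 1)) = pd (β i) ρ := by
      funext a
      exact fderiv_pd α (β i) i (hβ i) hρ.smooth a
    rw [h1]
    rfl
  have hN : ∀ x : Fin n → ℝ,
      ‖convolution f (fderiv ℝ g) (L0.precompR (Fin n → ℝ)) volume x‖ ≤ ∑ i, ‖u (β i)‖ := by
    intro x
    refine ContinuousLinearMap.opNorm_le_bound _
      (Finset.sum_nonneg fun i _ => norm_nonneg _) fun v => ?_
    set A := convolution f (fderiv ℝ g) (L0.precompR (Fin n → ℝ)) volume x with hA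
    have h1 : v = ∑ i, v i • (Pi.single i (1 : ℝ) : Fin n → ℝ) := by
      funext j
      rw [Finset.sum_apply]
      simp only [Pi.smul_apply, Pi.single_apply, smul_eq_mul, mul_ite, mul_one, mul_zero]
      rw [Finset.sum_ite_eq Finset.univ j v]
      simp
    have h2 : A v = ∑ i, v i * A (Pi.single i (1 : ℝ)) := by
      conv_lhs => rw [h1]
      rw [map_sum]
      refine Finset.sum_congr rfl fun i _ => ?_
      rw [map_smul, smul_eq_mul]
    rw [h2, Finset.sum_mul]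
    refine (norm_sum_le _ _).trans (Finset.sum_le_sum fun i _ => ?_)
    rw [norm_mul, mul_comm]
    refine mul_le_mul ?_ (norm_le_pi_norm v i) (norm_nonneg _) (norm_nonneg _)
    rw [hA, hE x i]
    exact li_bd (u (β i)) hρ x
  rw [hF x, hF y]
  have := Convex.norm_image_sub_le_of_norm_hasFDerivWithin_le (𝕜 := ℝ) (s := Set.univ)
    (f := convolution f g L0 volume)
    (f' := fun x => convolution f (fderiv ℝ g) (L0.precompR (Fin n → ℝ)) volume x)
    (fun x _ => (hD x).hasFDerivWithinAt) (fun x _ => hN x) convex_univ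
    (Set.mem_univ y) (Set.mem_univ x)
  exact this

end WkInf
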