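import Pool.Agent.Lib.MP_b76bf9_an.Main
import Pool.Agent.Lib.MP_b76bf9_an.LipOne
import Pool.Agent.Lib.MP_b76bf9_an.Lip

/-! # MP_b76bf9_an: the final form (helper4) -/

set_option autoImplicit false

open MeasureTheory
open scoped ENNReal

namespace WkInf

/-- The weak derivatives of order less than `k` are uniformly continuous (Lipschitz). -/
theorem uc_of_lt {n k : ℕ} {u : (Fin n → Fin (k + 1)) → LI n} (hu : IsW n k u)
    (α : Fin n → Fin (k + 1)) (hα : ∑ i, (α i : ℕ) < k) : UC (u α) := by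
  obtain ⟨L, hL, h⟩ := lip_one hu α hα
  exact uc_of_lip (u α) hL h

theorem final (n k : ℕ) (S : Submodule ℝ ((Fin n → Fin (k + 1)) → LI n))
    (hS : ∀ u, u ∈ S ↔ IsW n k u) (K : Set S) (hK : IsCompact K) (ε : ℝ) (hε : 0 < ε) :
    ∃ T : S →L[ℝ] S, FiniteDimensional ℝ (LinearMap.range (T : S →ₗ[ℝ] S)) ∧
      (∀ u ∈ K, ∀ α, ‖(T u).1 α‖ ≤ ‖u.1 α‖ + ε) ∧
      (∀ u ∈ K, ∀ α : Fin n → Fin (k + 1), ∑ i, (α i : ℕ) < k → ‖(T u).1 α - u.1 α‖ < ε) ∧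
      (∀ α, (∀ v ∈ K, UC (v.1 α)) → ∀ u ∈ K, ‖(T u).1 α - u.1 α‖ < ε) ∧
      ((∀ v ∈ K, ∀ α : Fin n → Fin (k + 1), ∑ i, (α i : ℕ) = k → UC (v.1 α)) →
        ∀ u ∈ K, ‖T u - u‖ < ε) := by
  obtain ⟨T, h1, h2, h3⟩ := main n k S hS K hK ε hε
  have h4 : ∀ u ∈ K, ∀ α : Fin n → Fin (k + 1), ∑ i, (α i : ℕ) < k →
      ‖(T u).1 α - u.1 α‖ < ε := fun u hu α hα =>
    h3 α (fun v _ => uc_of_lt ((hS v.1).1 v.2) α hα) u hu
  refine ⟨T, h1, h2, h4, h3, fun h u hu => ?_⟩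
  have h5 : ∀ α, ‖(T u - u).1 α‖ < ε := by
    intro α
    rcases lt_trichotomy (∑ i, (α i : ℕ)) k with h6 | h6 | h6
    · exact h4 u hu α h6
    · exact h3 α (fun v hv => h v hv α h6) u hu
    · have h7 : (T u - u).1 α = 0 := ((hS _).1 (T u - u).2).1 α h6
      rw [h7, norm_zero]
      exact hε
  exact (pi_norm_lt_iff hε).2 h5

end WkInf
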