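import Pool.Agent.Lib.MP_b76bf9_an.Parts

/-! # leaf: the smoothed functions are in `W^{k,∞}`, and smoothing commutes with derivatives -/

set_option autoImplicit false

open MeasureTheory
open scoped ENNReal

namespace WkInf

private theorem mem_int {n : ℕ} {ρ φ : (Fin n → ℝ) → ℝ} (hρ : Continuous ρ)
    (hs : HasCompactSupport ρ) (hφ : Continuous φ) (ht : HasCompactSupport φ) (g : LI n) :
    Integrable (fun p : (Fin n → ℝ) × (Fin n → ℝ) =>
      (g : (Fin n → ℝ) → ℝ) p.2 * (ρ (p.1 - p.2) * φ p.1))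
      ((volume : Measure (Fin n → ℝ)).prod (volume : Measure (Fin n → ℝ))) := by
  have hH : Integrable (fun p : (Fin n → ℝ) × (Fin n → ℝ) => ρ (p.1 - p.2) * φ p.1)
      ((volume : Measure (Fin n → ℝ)).prod (volume : Measure (Fin n → ℝ))) := by
    refine Continuous.integrable_of_hasCompactSupport ?_ ?_
    · exact (hρ.comp (continuous_fst.sub continuous_snd)).mul (hφ.comp continuous_fst)
    · have hK : IsCompact ((fun q : (Fin n → ℝ) × (Fin n → ℝ) => (q.1, q.1 - q.2)) ''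
          ((tsupport φ) ×ˢ (tsupport ρ))) :=
        (IsCompact.prod ht hs).image (continuous_fst.prodMk (continuous_fst.sub continuous_snd))
      refine HasCompactSupport.intro hK fun p hp => ?_
      by_contra hne
      apply hp
      have h1 : ρ (p.1 - p.2) ≠ 0 := fun h => hne (by rw [h, zero_mul])
      have h2 : φ p.1 ≠ 0 := fun h => hne (by rw [h, mul_zero])
      refine ⟨(p.1, p.1 - p.2), ⟨subset_tsupport _ h2, subset_tsupport _ h1⟩, ?_⟩
      ext1
      · rfl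
      · simp
  have hg : AEStronglyMeasurable (fun p : (Fin n → ℝ) × (Fin n → ℝ) =>
      (g : (Fin n → ℝ) → ℝ) p.2)
      ((volume : Measure (Fin n → ℝ)).prod (volume : Measure (Fin n → ℝ))) :=
    (Lp.aestronglyMeasurable g).comp_snd
  have hb : ∀ᵐ p : (Fin n → ℝ) × (Fin n → ℝ) ∂((volume : Measure (Fin n → ℝ)).prod
      (volume : Measure (Fin n → ℝ))), ‖(g : (Fin n → ℝ) → ℝ) p.2‖ ≤
        (eLpNormEssSup (g : (Fin n → ℝ) → ℝ) volume).toReal := by
    have h3 : ∀ᵐ y ∂(volume : Measure (Fin n → ℝ)), ‖(g : (Fin n → ℝ) → ℝ) y‖ ≤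
        (eLpNormEssSup (g : (Fin n → ℝ) → ℝ) volume).toReal := by
      have h4 := ae_le_eLpNormEssSup (f := (g : (Fin n → ℝ) → ℝ))
        (μ := (volume : Measure (Fin n → ℝ)))
      have h5 : eLpNormEssSup (g : (Fin n → ℝ) → ℝ) volume ≠ ⊤ := by
        have := Lp.eLpNorm_ne_top g
        rwa [eLpNorm_exponent_top] at this
      filter_upwards [h4] with y hy
      rw [← ENNReal.ofReal_le_ofReal_iff ENNReal.toReal_nonneg, ENNReal.ofReal_toReal h5,
        ofReal_norm]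
      exact hy
    exact Measure.quasiMeasurePreserving_snd.ae h3
  exact hH.bdd_mul hg hb

private theorem mem_swap {n : ℕ} {ρ φ : (Fin n → ℝ) → ℝ} (hρ : Continuous ρ)
    (hs : HasCompactSupport ρ) (hφ : Continuous φ) (ht : HasCompactSupport φ) (g : LI n) :
    ∫ x, (∫ y, (g : (Fin n → ℝ) → ℝ) y * ρ (x - y)) * φ x =
      ∫ y, (g : (Fin n → ℝ) → ℝ) y * ∫ x, ρ (x - y) * φ x := by
  have h1 : ∀ x, (∫ y, (g : (Fin n → ℝ) → ℝ) y * ρ (x - y)) * φ x =
      ∫ y, (g : (Fin n → ℝ) → ℝ) y * (ρ (x - y) * φ x) := fun x => by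
    rw [← integral_mul_const]
    exact integral_congr_ae (Filter.Eventually.of_forall fun y => by ring)
  have h2 : ∀ y, (g : (Fin n → ℝ) → ℝ) y * ∫ x, ρ (x - y) * φ x =
      ∫ x, (g : (Fin n → ℝ) → ℝ) y * (ρ (x - y) * φ x) := fun y => by
    rw [← integral_const_mul]
  simp_rw [h1, h2]
  exact integral_integral_swap (mem_int hρ hs hφ ht g)

/-- Fubini and integration by parts: the convolution of `g` with `D^α ρ` is the weak `D^α` of the
convolution of `g` with `ρ`. -/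
theorem member {n k : ℕ} (α : Fin n → Fin (k + 1)) {ρ φ : (Fin n → ℝ) → ℝ}
    (hρ : ContDiff ℝ (⊤ : ℕ∞) ρ) (hs : HasCompactSupport ρ) (hφ : ContDiff ℝ (⊤ : ℕ∞) φ)
    (ht : HasCompactSupport φ) (g g0 g1 : LI n)
    (h0 : (g0 : (Fin n → ℝ) → ℝ) =ᵐ[volume] fun x => ∫ y, (g : (Fin n → ℝ) → ℝ) y * ρ (x - y))
    (h1 : (g1 : (Fin n → ℝ) → ℝ) =ᵐ[volume]
      fun x => ∫ y, (g : (Fin n → ℝ) → ℝ) y * pd α ρ (x - y)) :
    ∫ x, (g0 : (Fin n → ℝ) → ℝ) x * pd α φ x
      = (-1 : ℝ) ^ (∑ i, (α i : ℕ)) * ∫ x, (g1 : (Fin n → ℝ) → ℝ) x * φ x := by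
  have e0 : ∫ x, (g0 : (Fin n → ℝ) → ℝ) x * pd α φ x =
      ∫ x, (∫ y, (g : (Fin n → ℝ) → ℝ) y * ρ (x - y)) * pd α φ x := by
    refine integral_congr_ae ?_
    filter_upwards [h0] with x hx
    rw [hx]
  have e1 : ∫ x, (g1 : (Fin n → ℝ) → ℝ) x * φ x =
      ∫ x, (∫ y, (g : (Fin n → ℝ) → ℝ) y * pd α ρ (x - y)) * φ x := by
    refine integral_congr_ae ?_
    filter_upwards [h1] with x hx
    rw [hx]
  rw [e0, e1, mem_swap hρ.continuous hs (pd_smooth α hφ).continuous (pd_supp α ht) g,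
    mem_swap (pd_smooth α hρ).continuous (pd_supp α hs) hφ.continuous ht g,
    ← integral_const_mul]
  refine integral_congr_ae (Filter.Eventually.of_forall fun y => ?_)
  have hψ : ContDiff ℝ (⊤ : ℕ∞) fun x : Fin n → ℝ => ρ (x - y) :=
    hρ.comp (contDiff_id.sub contDiff_const)
  have hψs : HasCompactSupport fun x : Fin n → ℝ => ρ (x - y) :=
    hs.comp_homeomorph (Homeomorph.subRight y)
  have e2 := parts α hψ hφ hψs ht
  have e3 : ∀ x, pd α (fun x : Fin n → ℝ => ρ (x - y)) x = pd α ρ (x - y) :=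
    fun x => pd_shift α hρ x y
  simp_rw [e3] at e2
  show (g : (Fin n → ℝ) → ℝ) y * ∫ x, ρ (x - y) * pd α φ x =
    (-1 : ℝ) ^ (∑ i, (α i : ℕ)) *
      ((g : (Fin n → ℝ) → ℝ) y * ∫ x, pd α ρ (x - y) * φ x)
  rw [e2]
  ring

end WkInf
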