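import Pool.Agent.Lib.MP_b76bf9_an.Defs

/-! # leaf: mollifiers -/

set_option autoImplicit false

open MeasureTheory
open scoped ENNReal

namespace WkInf

theorem exists_mol (n : ℕ) {δ : ℝ} (hδ : 0 < δ) : ∃ ρ : (Fin n → ℝ) → ℝ, Mol n δ ρ := by
  let f : ContDiffBump (0 : Fin n → ℝ) :=
    { rIn := δ / 4, rOut := δ / 2, rIn_pos := by positivity, rIn_lt_rOut := by linarith }
  refine ⟨f.normed volume, ?_, ?_, ?_, ?_, ?_⟩
  · exact f.contDiff_normed
  · exact f.hasCompactSupport_normed
  · exact fun x => f.nonneg_normed x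
  · exact f.integral_normed
  · intro x hx
    have h1 : x ∈ Function.support (f.normed volume) := hx
    rw [f.support_normed_eq] at h1
    have h2 : ‖x‖ < δ / 2 := by simpa using h1
    linarith

end WkInf
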