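import Pool.Agent.Lib.MP_b76bf9_an.Unif
import Pool.Agent.Lib.MP_b76bf9_an.Conv

/-! # leaf: smoothing a compact set of uniformly continuous functions -/

set_option autoImplicit false

open MeasureTheory
open scoped ENNReal

namespace WkInf

private theorem mol_mono {n : ℕ} {δ δ' : ℝ} {ρ : (Fin n → ℝ) → ℝ} (h : Mol n δ ρ)
    (hd : δ ≤ δ') : Mol n δ' ρ :=
  ⟨h.smooth, h.supp, h.nonneg, h.int, fun x hx => (h.small x hx).trans_le hd⟩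

theorem unif_compact {n : ℕ} (K : Set (LI n)) (hK : IsCompact K) (hU : ∀ g ∈ K, UC g) {ε : ℝ}
    (hε : 0 < ε) :
    ∃ δ : ℝ, 0 < δ ∧ ∀ ρ : (Fin n → ℝ) → ℝ, Mol n δ ρ → ∀ g ∈ K, ∀ h : LI n,
      (h : (Fin n → ℝ) → ℝ) =ᵐ[volume] (fun x => ∫ y, (g : (Fin n → ℝ) → ℝ) y * ρ (x - y)) →
      ‖h - g‖ ≤ ε := by
  classical
  have hε3 : 0 < ε / 3 := by positivity
  obtain ⟨t, htK, htf, hcov⟩ := hK.finite_cover_balls hε3
  have key : ∀ g ∈ K, ∃ δ : ℝ, 0 < δ ∧ ∀ ρ : (Fin n → ℝ) → ℝ, Mol n δ ρ → ∀ h : LI n,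
      (h : (Fin n → ℝ) → ℝ) =ᵐ[volume] (fun x => ∫ y, (g : (Fin n → ℝ) → ℝ) y * ρ (x - y)) →
      ‖h - g‖ ≤ ε / 3 := fun g hg => unif_one (hU g hg) hε3
  choose! d hd0 hd using key
  have hδ : ∃ δ : ℝ, 0 < δ ∧ ∀ g ∈ t, δ ≤ d g := by
    rcases t.eq_empty_or_nonempty with h0 | h0
    · exact ⟨1, one_pos, fun g hg => by rw [h0] at hg; exact hg.elim⟩
    · obtain ⟨g0, hg0, hmin⟩ := Set.exists_min_image t d htf h0
      exact ⟨d g0, hd0 g0 (htK hg0), fun g hg => hmin g hg⟩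
  obtain ⟨δ, hδ0, hδ1⟩ := hδ
  refine ⟨δ, hδ0, fun ρ hρ g hg h hh => ?_⟩
  obtain ⟨C, hC1, hC2⟩ := exists_conv ρ hρ.smooth.continuous hρ.supp
  have hCn : ∫ y, |ρ y| = 1 := by
    rw [← hρ.int]
    congr 1
    ext y
    exact abs_of_nonneg (hρ.nonneg y)
  have hhC : h = C g := Lp.ext (hh.trans (hC1 g).symm)
  obtain ⟨g', hg't, hgg'⟩ := Set.mem_iUnion₂.1 (hcov hg)
  have h1 : ‖C g' - g'‖ ≤ ε / 3 :=
    hd g' (htK hg't) ρ (mol_mono hρ (hδ1 g' hg't)) (C g') (hC1 g')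
  have h2 : ‖C (g - g')‖ ≤ ‖g - g'‖ := by
    have := hC2 (g - g')
    rwa [hCn, one_mul] at this
  have h3 : ‖g - g'‖ < ε / 3 := by
    rw [← dist_eq_norm]
    exact hgg'
  have h4 : h - g = C (g - g') + (C g' - g') + (g' - g) := by
    rw [hhC, map_sub]
    abel
  have h5 : ‖g' - g‖ = ‖g - g'‖ := norm_sub_rev _ _
  rw [h4]
  calc _ ≤ ‖C (g - g')‖ + ‖C g' - g'‖ + ‖g' - g‖ := norm_add₃_le
    _ ≤ ε := by linarith

end WkInf
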