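import Pool.Agent.Lib.MP_b76bf9_an.ALinf
import Pool.Agent.Lib.MP_b76bf9_an.Conv
import Pool.Agent.Lib.MP_b76bf9_an.Member
import Pool.Agent.Lib.MP_b76bf9_an.Commute
import Pool.Agent.Lib.MP_b76bf9_an.Moll
import Pool.Agent.Lib.MP_b76bf9_an.UnifK

/-! # MP_b76bf9_an: the main theorem (helper4) -/

set_option autoImplicit false

open MeasureTheory
open scoped ENNReal

namespace WkInf

theorem Mol.mono {n : ℕ} {δ δ' : ℝ} {ρ : (Fin n → ℝ) → ℝ} (h : Mol n δ ρ) (hle : δ ≤ δ') :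
    Mol n δ' ρ :=
  ⟨h.smooth, h.supp, h.nonneg, h.int, fun x hx => lt_of_lt_of_le (h.small x hx) hle⟩

/-- The smoothing operator from `L^∞` to `W^{k,∞}`. -/
theorem exists_M (n k : ℕ) (S : Submodule ℝ ((Fin n → Fin (k + 1)) → LI n))
    (hS : ∀ u, u ∈ S ↔ IsW n k u) {ρ : (Fin n → ℝ) → ℝ} (hρ : ContDiff ℝ (⊤ : ℕ∞) ρ)
    (hs : HasCompactSupport ρ) (C : (Fin n → Fin (k + 1)) → LI n →L[ℝ] LI n)
    (hC : ∀ α, ∀ g : LI n, (C α g : (Fin n → ℝ) → ℝ) =ᵐ[volume]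
        fun x => ∫ y, (g : (Fin n → ℝ) → ℝ) y * pd α ρ (x - y)) :
    ∃ M : LI n →L[ℝ] S, ∀ g α, (M g).1 α = if ∑ i, (α i : ℕ) ≤ k then C α g else 0 := by
  classical
  let P : LI n →L[ℝ] ((Fin n → Fin (k + 1)) → LI n) :=
    ContinuousLinearMap.pi fun α => if ∑ i, (α i : ℕ) ≤ k then C α else 0
  have hP : ∀ g α, P g α = if ∑ i, (α i : ℕ) ≤ k then C α g else 0 := by
    intro g α
    simp only [P, ContinuousLinearMap.pi_apply]
    split_ifs <;> rfl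
  have hmem : ∀ g, P g ∈ S := by
    intro g
    rw [hS]
    refine ⟨fun α hα => ?_, fun α hα φ hφ ht => ?_⟩
    · rw [hP, if_neg (by omega)]
    · have h0 : P g 0 = C 0 g := by
        rw [hP, if_pos (by simp)]
      have h1 : P g α = C α g := by
        rw [hP, if_pos hα]
      rw [h0, h1]
      refine member α hρ hs hφ ht g (C 0 g) (C α g) ?_ (hC α g)
      have h2 := hC 0 g
      rw [pd_zero] at h2
      exact h2
  exact ⟨P.codRestrict S hmem, fun g α => hP g α⟩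

theorem main (n k : ℕ) (S : Submodule ℝ ((Fin n → Fin (k + 1)) → LI n))
    (hS : ∀ u, u ∈ S ↔ IsW n k u) (K : Set S) (hK : IsCompact K) (ε : ℝ) (hε : 0 < ε) :
    ∃ T : S →L[ℝ] S, FiniteDimensional ℝ (LinearMap.range (T : S →ₗ[ℝ] S)) ∧
      (∀ u ∈ K, ∀ α, ‖(T u).1 α‖ ≤ ‖u.1 α‖ + ε) ∧
      ∀ α, (∀ u ∈ K, UC (u.1 α)) → ∀ u ∈ K, ‖(T u).1 α - u.1 α‖ < ε := by
  classical
  -- the radius
  have h1 : ∀ α : Fin n → Fin (k + 1), ∃ δ : ℝ, 0 < δ ∧ ((∀ u ∈ K, UC (u.1 α)) →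
      ∀ ρ : (Fin n → ℝ) → ℝ, Mol n δ ρ → ∀ u ∈ K, ∀ h : LI n,
      (h : (Fin n → ℝ) → ℝ) =ᵐ[volume]
        (fun x => ∫ y, (u.1 α : (Fin n → ℝ) → ℝ) y * ρ (x - y)) → ‖h - u.1 α‖ ≤ ε / 3) := by
    intro α
    by_cases hU : ∀ u ∈ K, UC (u.1 α)
    · have hcont : Continuous fun u : S => u.1 α :=
        (continuous_apply α).comp continuous_subtype_val
      obtain ⟨δ, hδ, h⟩ := unif_compact ((fun u : S => u.1 α) '' K) (hK.image hcont)
        (by rintro _ ⟨u, hu, rfl⟩; exact hU u hu) (by positivity : (0 : ℝ) < ε / 3)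
      exact ⟨δ, hδ, fun _ ρ hρ u hu h' hh' => h ρ hρ _ ⟨u, hu, rfl⟩ h' hh'⟩
    · exact ⟨1, one_pos, fun h => absurd h hU⟩
  choose δ hδ hδU using h1
  obtain ⟨α₀, hα₀⟩ := Finite.exists_min δ
  obtain ⟨ρ, hρ⟩ := exists_mol n (hδ α₀)
  -- the operators
  have h2 : ∀ α : Fin n → Fin (k + 1), ∃ C : LI n →L[ℝ] LI n,
      (∀ g : LI n, (C g : (Fin n → ℝ) → ℝ) =ᵐ[volume]
        fun x => ∫ y, (g : (Fin n → ℝ) → ℝ) y * pd α ρ (x - y)) ∧
      ∀ g : LI n, ‖C g‖ ≤ (∫ y, |pd α ρ y|) * ‖g‖ := fun α =>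
    exists_conv (pd α ρ) (pd_smooth α hρ.smooth).continuous (pd_supp α hρ.supp)
  choose C hC hCn using h2
  obtain ⟨D, hD, hDn⟩ := exists_conv ρ hρ.smooth.continuous hρ.supp
  obtain ⟨M, hM⟩ := exists_M n k S hS hρ.smooth hρ.supp C hC
  let ev : S →L[ℝ] LI n := (ContinuousLinearMap.proj (0 : Fin n → Fin (k + 1))).comp S.subtypeL
  have hev : ∀ u : S, ev u = u.1 0 := fun u => rfl
  -- the bound
  set B : ℝ := (∑ α : Fin n → Fin (k + 1), ∫ y, |pd α ρ y|) + 1 with hBdef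
  have hnn : ∀ α : Fin n → Fin (k + 1), 0 ≤ ∫ y, |pd α ρ y| := fun α =>
    integral_nonneg fun y => abs_nonneg _
  have hB : ∀ α : Fin n → Fin (k + 1), ∫ y, |pd α ρ y| ≤ B := by
    intro α
    have := Finset.single_le_sum (f := fun α : Fin n → Fin (k + 1) => ∫ y, |pd α ρ y|)
      (fun α _ => hnn α) (Finset.mem_univ α)
    have h5 : (∫ y, |pd α ρ y|) ≤ ∑ α : Fin n → Fin (k + 1), ∫ y, |pd α ρ y| := this
    linarith
  have hB0 : 0 < B := by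
    have := Finset.sum_nonneg (s := (Finset.univ : Finset (Fin n → Fin (k + 1))))
      (f := fun α => ∫ y, |pd α ρ y|) (fun α _ => hnn α)
    have h5 : 0 ≤ ∑ α : Fin n → Fin (k + 1), ∫ y, |pd α ρ y| := this
    linarith
  obtain ⟨A, hAf, hA⟩ := ap_linf (ev '' K) (hK.image ev.continuous)
    (by positivity : (0 : ℝ) < ε / (3 * B))
  refine ⟨M.comp (A.comp ev), ?_, ?_⟩
  · have h3 : LinearMap.range ((M.comp (A.comp ev) : S →L[ℝ] S) : S →ₗ[ℝ] S) ≤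
        (LinearMap.range (A : LI n →ₗ[ℝ] LI n)).map (M : LI n →ₗ[ℝ] S) := by
      rintro _ ⟨u, rfl⟩
      exact ⟨A (ev u), ⟨ev u, rfl⟩, rfl⟩
    haveI := hAf
    exact Submodule.finiteDimensional_of_le h3
  -- the estimates
  have key : ∀ u ∈ K, ∀ α : Fin n → Fin (k + 1), ∑ i, (α i : ℕ) ≤ k →
      ‖(M (A (ev u))).1 α - D (u.1 α)‖ ≤ ε / 3 := by
    intro u hu α hα
    have h4 : (M (A (ev u))).1 α = C α (A (ev u)) := by rw [hM, if_pos hα]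
    have h5 : D (u.1 α) = C α (ev u) := by
      refine Lp.ext ?_
      refine (hD (u.1 α)).trans ?_
      refine Filter.EventuallyEq.trans ?_ (hC α (ev u)).symm
      refine Filter.Eventually.of_forall fun x => ?_
      exact (commute ((hS u.1).1 u.2) α hα hρ.smooth hρ.supp x).symm
    rw [h4, h5, ← map_sub]
    calc ‖C α (A (ev u) - ev u)‖ ≤ (∫ y, |pd α ρ y|) * ‖A (ev u) - ev u‖ := hCn α _
      _ ≤ B * (ε / (3 * B)) := by
          refine mul_le_mul (hB α) (hA _ ⟨u, hu, rfl⟩) (norm_nonneg _) hB0.le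
      _ = ε / 3 := by field_simp
  have hD1 : ∀ g : LI n, ‖D g‖ ≤ ‖g‖ := by
    intro g
    have h6 : (∫ y, |ρ y|) = 1 := by
      rw [← hρ.int]
      exact integral_congr_ae (Filter.Eventually.of_forall fun y => abs_of_nonneg (hρ.nonneg y))
    have := hDn g
    rw [h6, one_mul] at this
    exact this
  have hT : ∀ u : S, (M.comp (A.comp ev)) u = M (A (ev u)) := fun u => rfl
  have hbig : ∀ u : S, ∀ α : Fin n → Fin (k + 1), ¬ ∑ i, (α i : ℕ) ≤ k →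
      (M (A (ev u))).1 α = 0 ∧ u.1 α = 0 := by
    intro u α hα
    exact ⟨by rw [hM, if_neg hα], ((hS u.1).1 u.2).1 α (by omega)⟩
  refine ⟨fun u hu α => ?_, fun α hU u hu => ?_⟩
  · rw [hT]
    by_cases hα : ∑ i, (α i : ℕ) ≤ k
    · calc ‖(M (A (ev u))).1 α‖ = ‖((M (A (ev u))).1 α - D (u.1 α)) + D (u.1 α)‖ := by
            rw [sub_add_cancel]
        _ ≤ ‖(M (A (ev u))).1 α - D (u.1 α)‖ + ‖D (u.1 α)‖ := norm_add_le _ _
        _ ≤ ε / 3 + ‖u.1 α‖ := add_le_add (key u hu α hα) (hD1 _)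
        _ ≤ ‖u.1 α‖ + ε := by linarith
    · obtain ⟨h7, h8⟩ := hbig u α hα
      rw [h7, h8, norm_zero]
      linarith
  · rw [hT]
    by_cases hα : ∑ i, (α i : ℕ) ≤ k
    · have h9 : ‖D (u.1 α) - u.1 α‖ ≤ ε / 3 :=
        hδU α hU ρ (hρ.mono (hα₀ α)) u hu (D (u.1 α)) (hD (u.1 α))
      calc ‖(M (A (ev u))).1 α - u.1 α‖
          = ‖((M (A (ev u))).1 α - D (u.1 α)) + (D (u.1 α) - u.1 α)‖ := by
            rw [sub_add_sub_cancel]
        _ ≤ ‖(M (A (ev u))).1 α - D (u.1 α)‖ + ‖D (u.1 α) - u.1 α‖ := norm_add_le _ _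
        _ ≤ ε / 3 + ε / 3 := add_le_add (key u hu α hα) h9
        _ < ε := by linarith
    · obtain ⟨h7, h8⟩ := hbig u α hα
      rw [h7, h8, sub_zero, norm_zero]
      exact hε

end WkInf
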