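import Pool.Agent.Lib.MP_b76bf9_an.Pd

/-! # leaf: integration by parts -/

set_option autoImplicit false

open MeasureTheory
open scoped ENNReal

namespace WkInf

private noncomputable def Dp {n : ℕ} (i : Fin n) (h : (Fin n → ℝ) → ℝ) : (Fin n → ℝ) → ℝ :=
  fun x => fderiv ℝ h x (Pi.single i 1)

private theorem Dp_smooth {n : ℕ} (i : Fin n) {h : (Fin n → ℝ) → ℝ}
    (hh : ContDiff ℝ (⊤ : ℕ∞) h) : ContDiff ℝ (⊤ : ℕ∞) (Dp i h) := by
  have h1 : ContDiff ℝ (⊤ : ℕ∞) (fderiv ℝ h) := hh.fderiv_right (by simp)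
  exact h1.clm_apply contDiff_const

private theorem Dp_supp {n : ℕ} (i : Fin n) {h : (Fin n → ℝ) → ℝ}
    (hh : HasCompactSupport h) : HasCompactSupport (Dp i h) :=
  hh.fderiv_apply (𝕜 := ℝ) (Pi.single i 1)

private theorem Dp_comm {n : ℕ} (i j : Fin n) {h : (Fin n → ℝ) → ℝ}
    (hh : ContDiff ℝ (⊤ : ℕ∞) h) : Dp i (Dp j h) = Dp j (Dp i h) := by
  have h1 : ContDiff ℝ (⊤ : ℕ∞) (fderiv ℝ h) := hh.fderiv_right (by simp)
  have key : ∀ (i j : Fin n) (x : Fin n → ℝ),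
      Dp i (Dp j h) x = fderiv ℝ (fderiv ℝ h) x (Pi.single i 1) (Pi.single j 1) := by
    intro i j x
    have h2 : DifferentiableAt ℝ (fderiv ℝ h) x := (h1.differentiable (by simp)) x
    unfold Dp
    rw [fderiv_clm_apply h2 (differentiableAt_const _)]
    simp
  funext x
  rw [key, key]
  have h3 : IsSymmSndFDerivAt ℝ h x :=
    (hh.contDiffAt).isSymmSndFDerivAt (by
      simp only [minSmoothness_of_isRCLikeNormedField]
      have h4 : ((2 : ℕ∞) : WithTop ℕ∞) ≤ ((⊤ : ℕ∞) : WithTop ℕ∞) := WithTop.coe_le_coe.2 le_top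
      exact h4)
  exact h3 _ _

private theorem Dp_iter_smooth {n : ℕ} (i : Fin n) (m : ℕ) {h : (Fin n → ℝ) → ℝ}
    (hh : ContDiff ℝ (⊤ : ℕ∞) h) : ContDiff ℝ (⊤ : ℕ∞) ((Dp i)^[m] h) := by
  induction m with
  | zero => exact hh
  | succ m ih =>
    rw [Function.iterate_succ_apply']
    exact Dp_smooth i ih

private theorem Dp_iter_supp {n : ℕ} (i : Fin n) (m : ℕ) {h : (Fin n → ℝ) → ℝ}
    (hh : HasCompactSupport h) : HasCompactSupport ((Dp i)^[m] h) := by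
  induction m with
  | zero => exact hh
  | succ m ih =>
    rw [Function.iterate_succ_apply']
    exact Dp_supp i ih

private theorem comm1 {n : ℕ} (i j : Fin n) (m : ℕ) : ∀ {h : (Fin n → ℝ) → ℝ},
    ContDiff ℝ (⊤ : ℕ∞) h → (Dp i)^[m] (Dp j h) = Dp j ((Dp i)^[m] h) := by
  induction m with
  | zero => intro h _; rfl
  | succ m ih =>
    intro h hh
    rw [Function.iterate_succ_apply, Dp_comm i j hh, ih (Dp_smooth i hh),
      Function.iterate_succ_apply]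

private theorem comm2 {n : ℕ} (i j : Fin n) (m q : ℕ) : ∀ {h : (Fin n → ℝ) → ℝ},
    ContDiff ℝ (⊤ : ℕ∞) h → (Dp i)^[m] ((Dp j)^[q] h) = (Dp j)^[q] ((Dp i)^[m] h) := by
  induction q with
  | zero => intro h _; rfl
  | succ q ih =>
    intro h hh
    rw [Function.iterate_succ_apply, ih (Dp_smooth j hh), comm1 i j m hh,
      Function.iterate_succ_apply]

private noncomputable def FF {n : ℕ} (a : Fin n → ℕ) (l : List (Fin n))
    (h : (Fin n → ℝ) → ℝ) : (Fin n → ℝ) → ℝ :=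
  l.foldr (fun i g => (Dp i)^[a i] g) h

private theorem FF_smooth {n : ℕ} (a : Fin n → ℕ) (l : List (Fin n)) {h : (Fin n → ℝ) → ℝ}
    (hh : ContDiff ℝ (⊤ : ℕ∞) h) : ContDiff ℝ (⊤ : ℕ∞) (FF a l h) := by
  induction l with
  | nil => exact hh
  | cons i l ih => exact Dp_iter_smooth i (a i) ih

private theorem FF_supp {n : ℕ} (a : Fin n → ℕ) (l : List (Fin n)) {h : (Fin n → ℝ) → ℝ}
    (hh : HasCompactSupport h) : HasCompactSupport (FF a l h) := by
  induction l with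
  | nil => exact hh
  | cons i l ih => exact Dp_iter_supp i (a i) ih

private theorem comm3 {n : ℕ} (a : Fin n → ℕ) (i : Fin n) (m : ℕ) (l : List (Fin n))
    {h : (Fin n → ℝ) → ℝ} (hh : ContDiff ℝ (⊤ : ℕ∞) h) :
    FF a l ((Dp i)^[m] h) = (Dp i)^[m] (FF a l h) := by
  induction l with
  | nil => rfl
  | cons j l ih =>
    change (Dp j)^[a j] (FF a l ((Dp i)^[m] h)) = (Dp i)^[m] ((Dp j)^[a j] (FF a l h))
    rw [ih, comm2 i j m (a j) (FF_smooth a l hh)]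

private theorem parts1 {n : ℕ} (i : Fin n) {ψ φ : (Fin n → ℝ) → ℝ}
    (hψ : ContDiff ℝ (⊤ : ℕ∞) ψ) (hφ : ContDiff ℝ (⊤ : ℕ∞) φ) (hs : HasCompactSupport ψ)
    (_ht : HasCompactSupport φ) :
    ∫ x, ψ x * Dp i φ x = - ∫ x, Dp i ψ x * φ x := by
  have c1 := Dp_smooth i hψ
  have c2 := Dp_smooth i hφ
  have s1 := Dp_supp i hs
  refine integral_mul_fderiv_eq_neg_fderiv_mul_of_integrable (v := Pi.single i 1) ?_ ?_ ?_ ?_ ?_
  · exact (c1.continuous.mul hφ.continuous).integrable_of_hasCompactSupport s1.mul_right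
  · exact (hψ.continuous.mul c2.continuous).integrable_of_hasCompactSupport hs.mul_right
  · exact (hψ.continuous.mul hφ.continuous).integrable_of_hasCompactSupport hs.mul_right
  · exact fun x _ => hψ.differentiable (by simp) x
  · exact fun x _ => hφ.differentiable (by simp) x

private theorem parts2 {n : ℕ} (i : Fin n) (m : ℕ) : ∀ {ψ φ : (Fin n → ℝ) → ℝ},
    ContDiff ℝ (⊤ : ℕ∞) ψ → ContDiff ℝ (⊤ : ℕ∞) φ → HasCompactSupport ψ →
    HasCompactSupport φ →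
    ∫ x, ψ x * (Dp i)^[m] φ x = (-1 : ℝ) ^ m * ∫ x, (Dp i)^[m] ψ x * φ x := by
  induction m with
  | zero => intro ψ φ _ _ _ _; simp
  | succ m ih =>
    intro ψ φ hψ hφ hs ht
    rw [Function.iterate_succ_apply, ih hψ (Dp_smooth i hφ) hs (Dp_supp i ht),
      parts1 i (Dp_iter_smooth i m hψ) hφ (Dp_iter_supp i m hs) ht,
      Function.iterate_succ_apply', pow_succ]
    ring

private theorem parts3 {n : ℕ} (a : Fin n → ℕ) (l : List (Fin n)) : ∀ {ψ φ : (Fin n → ℝ) → ℝ},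
    ContDiff ℝ (⊤ : ℕ∞) ψ → ContDiff ℝ (⊤ : ℕ∞) φ → HasCompactSupport ψ →
    HasCompactSupport φ →
    ∫ x, ψ x * FF a l φ x = (-1 : ℝ) ^ (l.map a).sum * ∫ x, FF a l ψ x * φ x := by
  induction l with
  | nil => intro ψ φ _ _ _ _; simp [FF]
  | cons i l ih =>
    intro ψ φ hψ hφ hs ht
    change ∫ x, ψ x * (Dp i)^[a i] (FF a l φ) x =
      (-1 : ℝ) ^ ((i :: l).map a).sum * ∫ x, (Dp i)^[a i] (FF a l ψ) x * φ x
    rw [parts2 i (a i) hψ (FF_smooth a l hφ) hs (FF_supp a l ht),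
      ih (Dp_iter_smooth i (a i) hψ) hφ (Dp_iter_supp i (a i) hs) ht,
      comm3 a i (a i) l hψ, List.map_cons, List.sum_cons, pow_add]
    ring

theorem parts {n k : ℕ} (α : Fin n → Fin (k + 1)) {ψ φ : (Fin n → ℝ) → ℝ}
    (hψ : ContDiff ℝ (⊤ : ℕ∞) ψ) (hφ : ContDiff ℝ (⊤ : ℕ∞) φ) (hs : HasCompactSupport ψ)
    (ht : HasCompactSupport φ) :
    ∫ x, ψ x * pd α φ x = (-1 : ℝ) ^ (∑ i, (α i : ℕ)) * ∫ x, pd α ψ x * φ x := by
  have h := parts3 (fun i => (α i : ℕ)) (List.finRange n) hψ hφ hs ht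
  rw [← Fin.sum_univ_def] at h
  exact h

end WkInf
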