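import Pool.Agent.Lib.MP_b76bf9_an.Defs

/-! # leaf: the iterated coordinate derivatives of smooth functions of compact support -/

set_option autoImplicit false

open MeasureTheory
open scoped ENNReal

namespace WkInf

/-- The derivative in the direction `i`. -/
private noncomputable def dd {n : ℕ} (i : Fin n) (h : (Fin n → ℝ) → ℝ) : (Fin n → ℝ) → ℝ :=
  fun x => fderiv ℝ h x (Pi.single i 1)

private theorem dd_smooth {n : ℕ} (i : Fin n) {h : (Fin n → ℝ) → ℝ}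
    (hh : ContDiff ℝ (⊤ : ℕ∞) h) : ContDiff ℝ (⊤ : ℕ∞) (dd i h) := by
  have h1 : ContDiff ℝ (⊤ : ℕ∞) (fderiv ℝ h) := hh.fderiv_right (by simp)
  exact h1.clm_apply contDiff_const

private theorem dd_supp {n : ℕ} (i : Fin n) {h : (Fin n → ℝ) → ℝ}
    (hh : HasCompactSupport h) : HasCompactSupport (dd i h) :=
  hh.fderiv_apply ℝ _

private theorem it_ind {n : ℕ} (P : ((Fin n → ℝ) → ℝ) → Prop) (i : Fin n)
    (hP : ∀ h, P h → P (dd i h)) (m : ℕ) (h : (Fin n → ℝ) → ℝ) (hh : P h) :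
    P ((dd i)^[m] h) := by
  induction m with
  | zero => exact hh
  | succ m ih =>
    rw [Function.iterate_succ_apply']
    exact hP _ ih

private theorem fold_ind {n k : ℕ} (P : ((Fin n → ℝ) → ℝ) → Prop)
    (hP : ∀ i h, P h → P (dd i h)) (α : Fin n → Fin (k + 1)) (l : List (Fin n))
    (h : (Fin n → ℝ) → ℝ) (hh : P h) :
    P (l.foldr (fun i g => (dd i)^[(α i : ℕ)] g) h) := by
  induction l with
  | nil => exact hh
  | cons i l ih =>
    rw [List.foldr_cons]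
    exact it_ind P i (hP i) _ _ ih

private theorem pd_eq {n k : ℕ} (α : Fin n → Fin (k + 1)) (φ : (Fin n → ℝ) → ℝ) :
    pd α φ = (List.finRange n).foldr (fun i g => (dd i)^[(α i : ℕ)] g) φ := rfl

theorem pd_smooth {n k : ℕ} (α : Fin n → Fin (k + 1)) {φ : (Fin n → ℝ) → ℝ}
    (hφ : ContDiff ℝ (⊤ : ℕ∞) φ) : ContDiff ℝ (⊤ : ℕ∞) (pd α φ) := by
  rw [pd_eq]
  exact fold_ind (fun h => ContDiff ℝ (⊤ : ℕ∞) h) (fun i h hh => dd_smooth i hh) α _ φ hφ

theorem pd_supp {n k : ℕ} (α : Fin n → Fin (k + 1)) {φ : (Fin n → ℝ) → ℝ}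
    (hs : HasCompactSupport φ) : HasCompactSupport (pd α φ) := by
  rw [pd_eq]
  exact fold_ind (fun h => HasCompactSupport h) (fun i h hh => dd_supp i hh) α _ φ hs

theorem pd_zero {n k : ℕ} (φ : (Fin n → ℝ) → ℝ) : pd (0 : Fin n → Fin (k + 1)) φ = φ := by
  rw [pd_eq]
  generalize List.finRange n = l
  induction l with
  | nil => rfl
  | cons i l ih =>
    rw [List.foldr_cons, ih]
    rfl

private theorem it_comp {n : ℕ} (A : (Fin n → ℝ) → (Fin n → ℝ)) (ε : ℝ)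
    (hA : ∀ (i : Fin n) (c : ℝ) (G : (Fin n → ℝ) → ℝ), ContDiff ℝ (⊤ : ℕ∞) G →
      dd i (fun z => c * G (A z)) = fun z => (ε * c) * dd i G (A z))
    (i : Fin n) (m : ℕ) (c : ℝ) (G : (Fin n → ℝ) → ℝ) (hG : ContDiff ℝ (⊤ : ℕ∞) G) :
    (dd i)^[m] (fun z => c * G (A z)) = fun z => (ε ^ m * c) * (dd i)^[m] G (A z) := by
  induction m with
  | zero =>
    funext z
    simp
  | succ m ih =>
    rw [Function.iterate_succ_apply', ih,
      hA i (ε ^ m * c) ((dd i)^[m] G)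
        (it_ind (fun h => ContDiff ℝ (⊤ : ℕ∞) h) i (fun h hh => dd_smooth i hh) m G hG)]
    funext z
    rw [Function.iterate_succ_apply', pow_succ]
    ring

private theorem fold_comp {n k : ℕ} (A : (Fin n → ℝ) → (Fin n → ℝ)) (ε : ℝ)
    (hA : ∀ (i : Fin n) (c : ℝ) (G : (Fin n → ℝ) → ℝ), ContDiff ℝ (⊤ : ℕ∞) G →
      dd i (fun z => c * G (A z)) = fun z => (ε * c) * dd i G (A z))
    (α : Fin n → Fin (k + 1)) (l : List (Fin n)) (G : (Fin n → ℝ) → ℝ)
    (hG : ContDiff ℝ (⊤ : ℕ∞) G) :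
    l.foldr (fun i g => (dd i)^[(α i : ℕ)] g) (fun z => G (A z)) =
      fun z => ε ^ ((l.map (fun i => (α i : ℕ))).sum) *
        (l.foldr (fun i g => (dd i)^[(α i : ℕ)] g) G) (A z) := by
  induction l with
  | nil =>
    funext z
    simp
  | cons i l ih =>
    rw [List.foldr_cons, ih,
      it_comp A ε hA i (α i : ℕ) _ _
        (fold_ind (fun h => ContDiff ℝ (⊤ : ℕ∞) h) (fun i h hh => dd_smooth i hh) α l G hG)]
    funext z
    rw [List.foldr_cons, List.map_cons, List.sum_cons, pow_add]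

private theorem dd_refl {n : ℕ} (x : Fin n → ℝ) (i : Fin n) (c : ℝ) (G : (Fin n → ℝ) → ℝ)
    (hG : ContDiff ℝ (⊤ : ℕ∞) G) :
    dd i (fun z => c * G (x - z)) = fun z => ((-1 : ℝ) * c) * dd i G (x - z) := by
  funext z
  have hd : HasFDerivAt G (fderiv ℝ G (x - z)) (x - z) :=
    ((hG.differentiable (by simp)) (x - z)).hasFDerivAt
  have h1 : HasFDerivAt (fun z : Fin n → ℝ => x - z)
      (-(ContinuousLinearMap.id ℝ (Fin n → ℝ))) z := by
    have := (hasFDerivAt_id (𝕜 := ℝ) z).const_sub x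
    exact this
  have h2 := (hd.comp z h1).const_mul c
  have h3 : fderiv ℝ (fun z => c * G (x - z)) z
      = c • ((fderiv ℝ G (x - z)).comp (-(ContinuousLinearMap.id ℝ (Fin n → ℝ)))) := h2.fderiv
  unfold dd
  rw [h3]
  simp

private theorem dd_shift {n : ℕ} (y : Fin n → ℝ) (i : Fin n) (c : ℝ) (G : (Fin n → ℝ) → ℝ)
    (hG : ContDiff ℝ (⊤ : ℕ∞) G) :
    dd i (fun z => c * G (z - y)) = fun z => ((1 : ℝ) * c) * dd i G (z - y) := by
  funext z
  have hd : HasFDerivAt G (fderiv ℝ G (z - y)) (z - y) :=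
    ((hG.differentiable (by simp)) (z - y)).hasFDerivAt
  have h1 : HasFDerivAt (fun z : Fin n → ℝ => z - y)
      (ContinuousLinearMap.id ℝ (Fin n → ℝ)) z := by
    have := (hasFDerivAt_id (𝕜 := ℝ) z).sub_const y
    exact this
  have h2 := (hd.comp z h1).const_mul c
  have h3 : fderiv ℝ (fun z => c * G (z - y)) z
      = c • ((fderiv ℝ G (z - y)).comp (ContinuousLinearMap.id ℝ (Fin n → ℝ))) := h2.fderiv
  unfold dd
  rw [h3]
  simp

/-- `D^α` of `y ↦ ρ (x - y)`. -/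
theorem pd_reflect {n k : ℕ} (α : Fin n → Fin (k + 1)) {ρ : (Fin n → ℝ) → ℝ}
    (hρ : ContDiff ℝ (⊤ : ℕ∞) ρ) (x y : Fin n → ℝ) :
    pd α (fun z => ρ (x - z)) y = (-1 : ℝ) ^ (∑ i, (α i : ℕ)) * pd α ρ (x - y) := by
  have h := fold_comp (fun z => x - z) (-1) (fun i c G hG => dd_refl x i c G hG) α
    (List.finRange n) ρ hρ
  rw [pd_eq, pd_eq, h, Fin.sum_univ_def]

/-- `D^α` of `z ↦ ρ (z - y)`. -/
theorem pd_shift {n k : ℕ} (α : Fin n → Fin (k + 1)) {ρ : (Fin n → ℝ) → ℝ}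
    (hρ : ContDiff ℝ (⊤ : ℕ∞) ρ) (x y : Fin n → ℝ) :
    pd α (fun z => ρ (z - y)) x = pd α ρ (x - y) := by
  have h := fold_comp (fun z => z - y) 1 (fun i c G hG => dd_shift y i c G hG) α
    (List.finRange n) ρ hρ
  rw [pd_eq, pd_eq, h]
  simp only [one_pow, one_mul]

end WkInf
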