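import Pool.Agent.Lib.MP_b76bf9_an.Final

/-! # MP_b76bf9_an: the definitions of the statement (helper4) -/

set_option autoImplicit false

open MeasureTheory
open scoped ENNReal

namespace WkInf

/-- The Banach space `L^∞(ℝⁿ)`. -/
def Linf (n : ℕ) : Type := Lp ℝ (⊤ : ℝ≥0∞) (volume : Measure (Fin n → ℝ))

/-- The norm of `L^∞` (Mathlib). -/
noncomputable def normLp (n : ℕ) :
    NormedAddCommGroup (Lp ℝ (⊤ : ℝ≥0∞) (volume : Measure (Fin n → ℝ))) := inferInstance

/-- `L^∞` is a normed space (Mathlib). -/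
noncomputable def spaceLp (n : ℕ) :
    NormedSpace ℝ (Lp ℝ (⊤ : ℝ≥0∞) (volume : Measure (Fin n → ℝ))) := inferInstance

noncomputable instance instNormLinf (n : ℕ) : NormedAddCommGroup (Linf n) := normLp n

noncomputable instance instSpaceLinf (n : ℕ) : NormedSpace ℝ (Linf n) := spaceLp n

/-- A function representing the class `g`. -/
noncomputable def Linf.fn {n : ℕ} (g : Linf n) : (Fin n → ℝ) → ℝ :=
  ((show Lp ℝ (⊤ : ℝ≥0∞) (volume : Measure (Fin n → ℝ)) from g) : (Fin n → ℝ) → ℝ)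

/-- The multi-indices `α` (with entries at most `k`). -/
abbrev Mi (n k : ℕ) : Type := Fin n → Fin (k + 1)

/-- The order `|α|`. -/
def order {n k : ℕ} (α : Mi n k) : ℕ := ∑ i, (α i : ℕ)

/-- The families of bounded functions indexed by the multi-indices, with the maximum norm. -/
def Tup (n k : ℕ) : Type := Mi n k → Linf n

/-- The maximum norm (Mathlib). -/
noncomputable def normPi (n k : ℕ) : NormedAddCommGroup (Mi n k → Linf n) := inferInstance

/-- The product is a normed space (Mathlib). -/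
noncomputable def spacePi (n k : ℕ) : NormedSpace ℝ (Mi n k → Linf n) := inferInstance

noncomputable instance instNormTup (n k : ℕ) : NormedAddCommGroup (Tup n k) := normPi n k

noncomputable instance instSpaceTup (n k : ℕ) : NormedSpace ℝ (Tup n k) := spacePi n k

/-- `g` is the weak derivative `D^α f`. -/
def WeakDer {n k : ℕ} (f g : Linf n) (α : Mi n k) : Prop :=
  ∀ φ : (Fin n → ℝ) → ℝ, ContDiff ℝ (⊤ : ℕ∞) φ → HasCompactSupport φ →
    ∫ x, f.fn x * pd α φ x = (-1 : ℝ) ^ order α * ∫ x, g.fn x * φ x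

/-- `u = (D^α f)_{|α| ≤ k}` for `f = u 0`, and the components with `|α| > k` are zero. -/
def IsTuple {n k : ℕ} (u : Tup n k) : Prop :=
  (∀ α : Mi n k, k < order α → u α = 0) ∧
    ∀ α : Mi n k, order α ≤ k → WeakDer (u (0 : Fin n → Fin (k + 1))) (u α) α

/-- `S` is the space `W^{k,∞}(ℝⁿ)`. -/
def IsSobolev {n k : ℕ} (S : Submodule ℝ (Tup n k)) : Prop := ∀ u, u ∈ S ↔ IsTuple u

/-- The subspace `S` as a normed space. -/
def Sp {n k : ℕ} (S : Submodule ℝ (Tup n k)) : Type := S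

/-- The norm of a subspace (Mathlib). -/
noncomputable def normSub {n k : ℕ} (S : Submodule ℝ (Tup n k)) : NormedAddCommGroup S :=
  inferInstance

/-- A subspace is a normed space (Mathlib). -/
noncomputable def spaceSub {n k : ℕ} (S : Submodule ℝ (Tup n k)) : NormedSpace ℝ S :=
  inferInstance

noncomputable instance instNormSp {n k : ℕ} (S : Submodule ℝ (Tup n k)) :
    NormedAddCommGroup (Sp S) := normSub S

noncomputable instance instSpaceSp {n k : ℕ} (S : Submodule ℝ (Tup n k)) :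
    NormedSpace ℝ (Sp S) := spaceSub S

/-- The component `D^α u`. -/
def Sp.D {n k : ℕ} {S : Submodule ℝ (Tup n k)} (u : Sp S) (α : Mi n k) : Linf n :=
  (show S from u).1 α

/-- `g` is almost everywhere equal to a uniformly continuous function. -/
def UnifCont {n : ℕ} (g : Linf n) : Prop :=
  ∃ f : (Fin n → ℝ) → ℝ, UniformContinuous f ∧ g.fn =ᵐ[volume] f

/-- `T` has finite rank. -/
def FinRank {n k : ℕ} {S : Submodule ℝ (Tup n k)} (T : Sp S →L[ℝ] Sp S) : Prop :=
  FiniteDimensional ℝ (LinearMap.range (T : Sp S →ₗ[ℝ] Sp S))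

/-- `‖D^α (T u)‖ ≤ ‖D^α u‖ + ε` on `K`. -/
def NoLarger {n k : ℕ} {S : Submodule ℝ (Tup n k)} (K : Set (Sp S)) (ε : ℝ) (T : Sp S → Sp S)
    (α : Mi n k) : Prop :=
  ∀ u ∈ K, ‖(T u).D α‖ ≤ ‖u.D α‖ + ε

/-- `‖D^α (T u) - D^α u‖ < ε` on `K`. -/
def CloseAt {n k : ℕ} {S : Submodule ℝ (Tup n k)} (K : Set (Sp S)) (ε : ℝ) (T : Sp S → Sp S)
    (α : Mi n k) : Prop :=
  ∀ u ∈ K, ‖(T u).D α - u.D α‖ < ε

/-- The conclusion: on `K` the norms of the `D^α u` grow by at most `ε`; the `D^α u` with `|α| < k`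
are approximated up to `ε`; so are those for which `D^α v` is uniformly continuous for all `v ∈ K`;
and if this holds for all `|α| = k`, then `‖T u - u‖ < ε`. -/
def Approximates {n k : ℕ} {S : Submodule ℝ (Tup n k)} (K : Set (Sp S)) (ε : ℝ)
    (T : Sp S → Sp S) : Prop :=
  (∀ α, NoLarger K ε T α) ∧
    (∀ α, order α < k → CloseAt K ε T α) ∧
    (∀ α, (∀ v ∈ K, UnifCont (v.D α)) → CloseAt K ε T α) ∧
    ((∀ v ∈ K, ∀ α, order α = k → UnifCont (v.D α)) → ∀ u ∈ K, ‖T u - u‖ < ε)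

theorem final' (n k : ℕ) (S : Submodule ℝ (Tup n k)) (hS : IsSobolev S)
    (K : Set (Sp S)) (hK : IsCompact K) (ε : ℝ) (hε : 0 < ε) :
    ∃ T : Sp S →L[ℝ] Sp S, FinRank T ∧ Approximates K ε T := by
  obtain ⟨T, h1, h2, h3, h4, h5⟩ := final n k S hS K hK ε hε
  exact ⟨T, h1, fun α u hu => h2 u hu α, fun α hα u hu => h3 u hu α hα, h4, h5⟩

end WkInf
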