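import Pool.Agent.Lib.MP_b76bf9_an.Defs

/-! # leaf: smoothing a uniformly continuous function -/

set_option autoImplicit false

open MeasureTheory
open scoped ENNReal

namespace WkInf

theorem unif_one {n : ℕ} {g : LI n} (hg : UC g) {ε : ℝ} (hε : 0 < ε) :
    ∃ δ : ℝ, 0 < δ ∧ ∀ ρ : (Fin n → ℝ) → ℝ, Mol n δ ρ → ∀ h : LI n,
      (h : (Fin n → ℝ) → ℝ) =ᵐ[volume] (fun x => ∫ y, (g : (Fin n → ℝ) → ℝ) y * ρ (x - y)) →
      ‖h - g‖ ≤ ε := by
  obtain ⟨f, hf, hgf⟩ := hg
  obtain ⟨δ, hδ, hd⟩ := Metric.uniformContinuous_iff.mp hf ε hε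
  refine ⟨δ, hδ, fun ρ hρ h hh => ?_⟩
  have key : ∀ᵐ x ∂(volume : Measure (Fin n → ℝ)), ‖((h - g : LI n) : (Fin n → ℝ) → ℝ) x‖ ≤ ε := by
    filter_upwards [Lp.coeFn_sub h g, hh, hgf] with x hx1 hx2 hx3
    rw [hx1, Pi.sub_apply, hx2, hx3]
    have hρi : Integrable ρ :=
      hρ.smooth.continuous.integrable_of_hasCompactSupport hρ.supp
    have hρc : Integrable (fun y => ρ (x - y)) := hρi.comp_sub_left x
    have hone : ∫ y, ρ (x - y) = 1 := by
      rw [integral_sub_left_eq_self]; exact hρ.int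
    have hmem : MemLp (g : (Fin n → ℝ) → ℝ) ⊤ (volume : Measure (Fin n → ℝ)) := Lp.memLp g
    have hgi : Integrable (fun y => (g : (Fin n → ℝ) → ℝ) y * ρ (x - y)) := by
      have h1 := Integrable.bdd_mul (c := ‖g‖) hρc (Lp.aestronglyMeasurable g) ?_
      · exact h1
      · have h2 := ae_le_eLpNormEssSup (f := (g : (Fin n → ℝ) → ℝ))
          (μ := (volume : Measure (Fin n → ℝ)))
        filter_upwards [h2] with y hy
        rw [Lp.norm_def, eLpNorm_exponent_top]
        have h3 : eLpNormEssSup (g : (Fin n → ℝ) → ℝ) (volume : Measure (Fin n → ℝ)) ≠ ⊤ := by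
          have := hmem.2.ne
          rwa [eLpNorm_exponent_top] at this
        have h4 := ENNReal.toReal_mono h3 hy
        simpa using h4
    have hsub : (∫ y, (g : (Fin n → ℝ) → ℝ) y * ρ (x - y)) - f x
        = ∫ y, ((g : (Fin n → ℝ) → ℝ) y - f x) * ρ (x - y) := by
      simp_rw [sub_mul]
      rw [integral_sub hgi (hρc.const_mul _), integral_const_mul, hone, mul_one]
    rw [hsub]
    have hb : ‖∫ y, ((g : (Fin n → ℝ) → ℝ) y - f x) * ρ (x - y)‖ ≤ ∫ y, ε * ρ (x - y) := by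
      refine norm_integral_le_of_norm_le (hρc.const_mul ε) ?_
      filter_upwards [hgf] with y hy
      rw [norm_mul, Real.norm_of_nonneg (hρ.nonneg _), hy]
      by_cases h0 : ρ (x - y) = 0
      · rw [h0]; simp
      · have h1 : ‖x - y‖ < δ := hρ.small _ h0
        have h2 : dist (f y) (f x) < ε := hd (by rw [dist_comm, dist_eq_norm]; exact h1)
        rw [← dist_eq_norm]
        exact mul_le_mul_of_nonneg_right h2.le (hρ.nonneg _)
    refine hb.trans ?_
    rw [integral_const_mul, hone, mul_one]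
  rw [Lp.norm_def, eLpNorm_exponent_top]
  exact ENNReal.toReal_le_of_le_ofReal hε.le (eLpNormEssSup_le_of_ae_bound key)

end WkInf
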